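import Pool.Agent.Lib.DN.PI.Cop

/-!
# THEOREM DN, Part I: invariance of the functions `b n` (module BInv)
-/

set_option autoImplicit false

open scoped Pointwise nonZeroDivisors

noncomputable section

namespace Pool.Agent.DN.PI

open Pool.Agent.MuZ Pool.Agent.DN NumberField IsDedekindDomain
open Pool.Agent.DI (io ofC io_inj exists_io io_ofC ofC_io VP MP UP TP ex sqr sqr_sq kap)

theorem pBInv : S_BInv := by
  intro hG3 hE1 hO6 k t _ f m P d T hD n σ hσ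
  have hA4 := (hO6 k t).2.1
  have hpos : 0 < f * 2 ^ (n + 2) := Nat.mul_pos hD.odd.pos (by positivity)
  have hσ' : σ⁻¹ ∈ GK k t := inv_mem hσ
  have key : ∀ a : Ideal (OO k t), Psi σ⁻¹ (f * 2 ^ (n + 2)) a → Gd (2 * f) a ∧
      σ⁻¹ (uN f (n + 2) m (T n) ⊤) = uN f (n + 2) m (T n) a := by
    intro a ha
    have h1 : PrI a f ∧ PrI a (2 ^ (n + 2)) := (hA4 f (2 ^ (n + 2)) a).1 (psi_cop ha)
    have h2 : PrI a 2 := by
      have h3 : PrI a (2 * 2 ^ (n + 1)) := by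
        have h4 : 2 * 2 ^ (n + 1) = 2 ^ (n + 2) := by ring
        rw [h4]
        exact h1.2
      exact ((hA4 2 (2 ^ (n + 1)) a).1 h3).1
    refine ⟨⟨ha.ne, (hA4 2 f a).2 ⟨h2, h1.1⟩⟩, ?_⟩
    have htop : PrI (⊤ : Ideal (OO k t)) (2 * f) := top_sup_eq _
    obtain ⟨-, -, -, -, -, h6, -⟩ := hG3 k t f m (n + 2) (T n) hD.odd hD.fif hD.mne hD.m2 hD.mf
      (by omega) (hD.rep n) ⊤ top_ne_bot htop
    have h7 := h6 _ hσ' a ha
    rwa [Ideal.mul_top] at h7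
  constructor
  · intro τ hτ
    obtain ⟨a, ha⟩ := (hE1 k t _ hpos (d15 hD.fif _)).1 _ hσ'
    obtain ⟨hc, hu⟩ := key a ha
    have hm : uN f (n + 2) m (T n) a ∈ Mn k t f (n + 2) :=
      (hG3 k t f m (n + 2) (T n) hD.odd hD.fif hD.mne hD.m2 hD.mf (by omega) (hD.rep n) a
        hc.1 hc.2).1
    have hfix : τ⁻¹ (uN f (n + 2) m (T n) a) = uN f (n + 2) m (T n) a :=
      (IntermediateField.mem_fixingSubgroup_iff _ _).1 (inv_mem hτ) _ hm
    have hst : (σ * τ)⁻¹ (uN f (n + 2) m (T n) ⊤) = σ⁻¹ (uN f (n + 2) m (T n) ⊤) := by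
      rw [mul_inv_rev, AlgEquiv.mul_apply, hu, hfix]
    unfold bb
    rw [hst]
  · intro a ha
    obtain ⟨hc, hu⟩ := key a ha
    refine ⟨hc, ?_⟩
    unfold bb
    rw [hu]

end Pool.Agent.DN.PI
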