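import Pool.Agent.Lib.DN.PI.SpecC

/-!
# THEOREM DN, Part I: a prime above `2` exists (`S_ExP`)
-/

set_option autoImplicit false

open scoped Pointwise

noncomputable section

namespace Pool.Agent.DN.PI

open Pool.Agent.MuZ Pool.Agent.DN
open Pool.Agent.DI (io ofC io_inj VP MP)

private theorem ExP_two_coe : ((2 : ZZ) : Om) = 2 := rfl

private theorem ExP_two : ¬ IsUnit (2 : ZZ) := by
  intro h
  obtain ⟨u, hu⟩ := h.exists_right_inv
  have h1 : (2 : Om) * (u : Om) = 1 := by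
    have := congrArg (fun t : ZZ => (t : Om)) hu
    simpa [ExP_two_coe] using this
  have h2 : ((1 / 2 : ℚ) : Om) = (u : Om) := by
    push_cast
    field_simp
    linear_combination -h1
  have h3 : IsIntegral ℤ (algebraMap ℚ Om (1 / 2 : ℚ)) := by
    have : algebraMap ℚ Om (1 / 2 : ℚ) = (u : Om) := by
      rw [← h2]; simp
    rw [this]
    exact u.2
  have h4 : IsIntegral ℤ (1 / 2 : ℚ) :=
    (isIntegral_algebraMap_iff (algebraMap ℚ Om).injective).1 h3
  obtain ⟨y, hy⟩ := IsIntegrallyClosed.isIntegral_iff.1 h4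
  have h5 : ((y : ℤ) : ℚ) = 1 / 2 := by simpa using hy
  have h6 : ((2 * y : ℤ) : ℚ) = ((1 : ℤ) : ℚ) := by
    push_cast
    rw [h5]; norm_num
  have h7 : (2 * y : ℤ) = 1 := by exact_mod_cast h6
  omega

theorem pExP : S_ExP := by
  refine ⟨?_, ?_⟩
  · have hne : Ideal.span {(2 : ZZ)} ≠ ⊤ := by
      intro h
      exact ExP_two (Ideal.span_singleton_eq_top.1 h)
    obtain ⟨P, hP, hle⟩ := Ideal.exists_le_maximal _ hne
    have h2 : (2 : ZZ) ∈ P := hle (Ideal.mem_span_singleton_self _)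
    have h1 : (1 : ZZ) ∉ P := fun h => hP.ne_top ((Ideal.eq_top_iff_one P).2 h)
    refine ⟨P, ⟨hP.isPrime, ?_⟩, ⟨2, 1, h2, h1, ?_⟩⟩
    · rintro rfl
      rw [Ideal.mem_bot] at h2
      exact two_ne_zero h2
    · rw [ExP_two_coe]; simp
  · rintro P ⟨hN, h2⟩
    refine ⟨?_, hN, h2⟩
    obtain ⟨a, b, ha, hb, hab⟩ := h2
    have h3 : 2 * b = a := by
      apply Subtype.ext
      push_cast
      rw [ExP_two_coe]
      exact hab
    have h4 : 2 * b ∈ P := by rw [h3]; exact ha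
    exact (hN.1.mem_or_mem h4).resolve_right hb

end Pool.Agent.DN.PI
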