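import Pool.Agent.Lib.DN.PI.SpecD
import Pool.Agent.Lib.DN.Base

/-!
# THEOREM DN, Part I, module FT: number fields inside the field of the Weber function
-/

set_option autoImplicit false

open scoped Pointwise

noncomputable section

namespace Pool.Agent.DN.PI

open Pool.Agent.MuZ Pool.Agent.DN
open Pool.Agent.DI (io ofC)

private theorem FT_mem (hL2 : S_L2) (k t : ℕ) [Ine k t]
    (hR : ∀ M : ℕ, 0 < M → 15 ∣ M → wO k t ∈ RCF k t M ∧
      ∀ z₁ z₂ z₃ : ℂ, z₁ ∉ Lam (⊤ : Ideal (OO k t)) → z₂ ∉ Lam (⊤ : Ideal (OO k t)) →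
      z₃ ∉ Lam (⊤ : Ideal (OO k t)) → (M : ℂ) * z₁ ∈ Lam (⊤ : Ideal (OO k t)) →
      (M : ℂ) * z₂ ∈ Lam (⊤ : Ideal (OO k t)) → (M : ℂ) * z₃ ∈ Lam (⊤ : Ideal (OO k t)) →
      ofC (crC k t z₁ z₂ z₃) ∈ RCF k t M) (x : Om) (hx : x ∈ Wf k t) :
    ∃ M : ℕ, 0 < M ∧ ∀ M' : ℕ, 0 < M' → 15 ∣ M' → M ∣ M' → x ∈ RCF k t M' := by
  have two : ∀ x y : Om,
      (∃ M : ℕ, 0 < M ∧ ∀ M' : ℕ, 0 < M' → 15 ∣ M' → M ∣ M' → x ∈ RCF k t M') →
      (∃ M : ℕ, 0 < M ∧ ∀ M' : ℕ, 0 < M' → 15 ∣ M' → M ∣ M' → y ∈ RCF k t M') →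
      ∃ M : ℕ, 0 < M ∧ ∀ M' : ℕ, 0 < M' → 15 ∣ M' → M ∣ M' → x ∈ RCF k t M' ∧ y ∈ RCF k t M' := by
    rintro x y ⟨M, hM, hx⟩ ⟨M', hM', hy⟩
    refine ⟨M * M', Nat.mul_pos hM hM', fun M'' h0 h15 h => ⟨?_, ?_⟩⟩
    · exact hx M'' h0 h15 ((Dvd.intro _ rfl).trans h)
    · exact hy M'' h0 h15 ((Dvd.intro_left _ rfl).trans h)
  have up : ∀ (N c : ℕ) (z : ℂ), (N : ℂ) * z ∈ Lam (⊤ : Ideal (OO k t)) →
      ((c * N : ℕ) : ℂ) * z ∈ Lam (⊤ : Ideal (OO k t)) := by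
    intro N c z hz
    have h1 : ((c * N : ℕ) : ℂ) * z = toC ((c : ℕ) : OO k t) * ((N : ℂ) * z) := by
      rw [toC_nat]
      push_cast
      ring
    rw [h1]
    exact lam_mul _ hz
  unfold Wf at hx
  induction hx using IntermediateField.adjoin_induction with
  | mem a ha =>
    rcases ha with ha | ⟨z₁, z₂, z₃, ht1, ht2, ht3, h1, h2, h3, rfl⟩
    · refine ⟨1, one_pos, fun M' h0 h15 _ => ?_⟩
      rw [Set.mem_singleton_iff] at ha
      subst ha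
      exact (hR M' h0 h15).1
    · obtain ⟨-, -, -, -, -, -, -, h8⟩ := hL2 k t
      obtain ⟨N1, hN1, hNz1⟩ := (h8 (⊤ : Ideal (OO k t)) z₁ top_ne_bot).1 ht1
      obtain ⟨N2, hN2, hNz2⟩ := (h8 (⊤ : Ideal (OO k t)) z₂ top_ne_bot).1 ht2
      obtain ⟨N3, hN3, hNz3⟩ := (h8 (⊤ : Ideal (OO k t)) z₃ top_ne_bot).1 ht3
      refine ⟨N1 * N2 * N3, Nat.mul_pos (Nat.mul_pos hN1 hN2) hN3, fun M' h0 h15 hd => ?_⟩
      obtain ⟨c, rfl⟩ := hd
      refine (hR _ h0 h15).2 z₁ z₂ z₃ h1 h2 h3 ?_ ?_ ?_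
      · have h4 := up N1 (N2 * N3 * c) z₁ hNz1
        have h5 : N2 * N3 * c * N1 = N1 * N2 * N3 * c := by ring
        rwa [h5] at h4
      · have h4 := up N2 (N1 * N3 * c) z₂ hNz2
        have h5 : N1 * N3 * c * N2 = N1 * N2 * N3 * c := by ring
        rwa [h5] at h4
      · have h4 := up N3 (N1 * N2 * c) z₃ hNz3
        have h5 : N1 * N2 * c * N3 = N1 * N2 * N3 * c := by ring
        rwa [h5] at h4
  | algebraMap r => exact ⟨1, one_pos, fun M' _ _ _ => IntermediateField.algebraMap_mem _ r⟩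
  | add x y _ _ hx hy =>
    obtain ⟨M, hM, h⟩ := two x y hx hy
    exact ⟨M, hM, fun M' h0 h15 hd => add_mem (h M' h0 h15 hd).1 (h M' h0 h15 hd).2⟩
  | inv x _ hx =>
    obtain ⟨M, hM, h1⟩ := hx
    exact ⟨M, hM, fun M' h0 h15 hd => inv_mem (h1 M' h0 h15 hd)⟩
  | mul x y _ _ hx hy =>
    obtain ⟨M, hM, h⟩ := two x y hx hy
    exact ⟨M, hM, fun M' h0 h15 hd => mul_mem (h M' h0 h15 hd).1 (h M' h0 h15 hd).2⟩

theorem pFT : S_FT := by
  classical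
  intro hL2 k t _ hR F hF hFT
  obtain ⟨s, hs⟩ := hF.fg_top
  choose! Mf0 hMf1 hMf2 using FT_mem hL2 k t hR
  have h0 : 0 < 30 * ∏ x ∈ s, Mf0 (x : Om) := by
    apply Nat.mul_pos (by norm_num)
    exact Finset.prod_pos fun x _ => hMf1 x (hFT x.2)
  obtain ⟨N, f, hf, hfN⟩ := Nat.exists_eq_two_pow_mul_odd h0.ne'
  have h15 : 15 ∣ 30 * ∏ x ∈ s, Mf0 (x : Om) := Dvd.dvd.mul_right ⟨2, rfl⟩ _
  refine ⟨f, N, hf, ?_, ?_, ?_⟩
  · have h3 : 15 ∣ 2 ^ N * f := by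
      rw [← hfN]
      exact h15
    exact (Nat.Coprime.pow_right N (by norm_num : Nat.Coprime 15 2)).dvd_of_dvd_mul_left h3
  · rcases Nat.eq_zero_or_pos N with rfl | h
    · exfalso
      have h2 : 2 ∣ 2 ^ 0 * f := by
        rw [← hfN]
        exact Dvd.dvd.mul_right ⟨15, rfl⟩ _
      rw [pow_zero, one_mul] at h2
      obtain ⟨j, hj⟩ := hf
      omega
    · exact h
  · rw [mul_comm f, ← hfN]
    intro y hy
    have h1 : (⟨y, hy⟩ : F) ∈ Submodule.span ℚ (s : Set F) := by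
      rw [hs]
      exact Submodule.mem_top
    have h2 : ∀ z : F, z ∈ Submodule.span ℚ (s : Set F) →
        (z : Om) ∈ RCF k t (30 * ∏ x ∈ s, Mf0 (x : Om)) := by
      intro z hz
      induction hz using Submodule.span_induction with
      | mem x hx =>
        refine hMf2 x (hFT x.2) _ h0 h15 ?_
        exact Dvd.dvd.mul_left (Finset.dvd_prod_of_mem (fun x : F => Mf0 (x : Om)) hx) 30
      | zero => exact zero_mem _
      | add x y _ _ hx hy => exact add_mem hx hy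
      | smul a x _ hx =>
        have h3 : ((a • x : F) : Om) = algebraMap ℚ Om a * (x : Om) := by
          rw [← Algebra.smul_def]
          rfl
        rw [h3]
        exact mul_mem (IntermediateField.algebraMap_mem _ a) hx
    exact h2 _ h1

end Pool.Agent.DN.PI
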