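import Pool.Agent.Lib.DN.PI.SpecC
import Pool.Agent.Lib.DN.Base

set_option autoImplicit false

/-!
# THEOREM DN, Part I: mu = 0 for K
-/

open scoped Pointwise

noncomputable section

namespace Pool.Agent.DN.PI

open Pool.Agent.MuZ Pool.Agent.DN

variable {k t : ℕ}

private theorem KQ0_fin : FiniteDimensional ℚ (KQ k t) := by
  have hint : IsIntegral ℚ (wO k t) := (Algebra.IsAlgebraic.isAlgebraic (R := ℚ) (wO k t)).isIntegral
  exact IntermediateField.adjoin.finiteDimensional hint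

private theorem KQ0_wO : wO k t ∈ KQ k t := IntermediateField.mem_adjoin_simple_self ℚ (wO k t)

private theorem KQ0_root [Ine k t] (σ : Gal(Om/ℚ)) : σ (wO k t) = wO k t ∨ σ (wO k t) = t - wO k t := by
  have h1 : σ (wO k t) ^ 2 = t * σ (wO k t) - k := by
    rw [← map_pow, wO_sq, map_sub, map_mul, map_natCast, map_natCast]
  have h0 := wO_sq (n := k) (t := t)
  have h2 : (σ (wO k t) - wO k t) * (σ (wO k t) - (t - wO k t)) = 0 := by
    linear_combination h1 - h0
  rcases mul_eq_zero.1 h2 with h3 | h3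
  · exact Or.inl (sub_eq_zero.1 h3)
  · exact Or.inr (sub_eq_zero.1 h3)

private theorem KQ0_stab [Ine k t] (σ : Gal(Om/ℚ)) : ∀ x ∈ KQ k t, σ x ∈ KQ k t := by
  have h1 : σ (wO k t) ∈ KQ k t := by
    rcases KQ0_root (k := k) (t := t) σ with h | h
    · rw [h]
      exact KQ0_wO
    · rw [h]
      exact sub_mem (natCast_mem (KQ k t) t) KQ0_wO
  have h2 : KQ k t ≤ (KQ k t).comap (σ : Om →ₐ[ℚ] Om) :=
    IntermediateField.adjoin_le_iff.2 (Set.singleton_subset_iff.2 h1)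
  intro x hx
  exact h2 hx

private theorem KQ0_sq [Ine k t] (σ : Gal(Om/ℚ)) : σ ^ 2 ^ 1 ∈ (KQ k t).fixingSubgroup := by
  rw [IntermediateField.mem_fixingSubgroup_iff]
  have h1 : ∀ x : Om, (σ ^ 2 ^ 1) x = σ (σ x) := by
    intro x
    rw [pow_one, sq]
    rfl
  intro x hx
  rw [h1]
  refine IntermediateField.adjoin_induction ℚ (p := fun y _ => σ (σ y) = y) ?_ ?_ ?_ ?_ ?_ hx
  · intro y hy
    rw [Set.mem_singleton_iff] at hy
    subst hy
    rcases KQ0_root (k := k) (t := t) σ with h | h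
    · rw [h, h]
    · rw [h, map_sub, map_natCast, h]
      ring
  · intro r
    rw [AlgEquiv.commutes, AlgEquiv.commutes]
  · intro a b _ _ ha hb
    rw [map_add, map_add, ha, hb]
  · intro a _ ha
    rw [map_inv₀, map_inv₀, ha]
  · intro a b _ _ ha hb
    rw [map_mul, map_mul, ha, hb]

theorem pKQ0 : S_KQ0 := by
  intro hJPe hA h0 k t _
  refine ⟨KQ0_fin, ?_⟩
  have hfact : Fact (Nat.Prime 2) := ⟨Nat.prime_two⟩
  exact (hJPe hA 2 ⊥ ⊥ (KQ k t) KQ0_fin le_rfl bot_le (fun σ _ => KQ0_stab σ)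
    ⟨1, fun σ _ => KQ0_sq σ⟩).2 h0

end Pool.Agent.DN.PI
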