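import Pool.Agent.Lib.DN.PI.Cop
import Pool.Agent.Lib.DN.Base
import Pool.Agent.Lib.MuZ.AsmA

/-!
# THEOREM DN, Part I, module LyI: the layers of the cyclotomic `ℤ_2`-extension of `FixI (2 * f) H`
-/

set_option autoImplicit false

open scoped Pointwise

namespace Pool.Agent.DN.PI

open Pool.Agent.MuZ Pool.Agent.DN
open Pool.Agent.DI (io ofC io_inj exists_io io_ofC ofC_io VP MP UP TP ex sqr sqr_sq kap)

/-- the index of the subgroup generated by `-1` -/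
private theorem LyI_index (n : ℕ) :
    (Subgroup.zpowers (-1 : (ZMod (2 ^ (n + 2)))ˣ)).index = 2 ^ n := by
  have hne : NeZero (2 ^ (n + 2)) := ⟨(pow_pos two_pos _).ne'⟩
  have hlt : Fact (2 < 2 ^ (n + 2)) := ⟨by
    rw [pow_add]
    have := Nat.one_le_two_pow (n := n)
    omega⟩
  have hne1 : (-1 : (ZMod (2 ^ (n + 2)))ˣ) ≠ 1 := by
    intro h
    have h1 := congrArg (Units.val) h
    rw [Units.val_neg, Units.val_one] at h1
    exact ZMod.neg_one_ne_one h1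
  have hord : orderOf (-1 : (ZMod (2 ^ (n + 2)))ˣ) = 2 :=
    orderOf_eq_prime (by rw [sq, neg_mul_neg, one_mul]) hne1
  have h1 := Subgroup.index_mul_card (Subgroup.zpowers (-1 : (ZMod (2 ^ (n + 2)))ˣ))
  rw [Nat.card_zpowers, hord, Nat.card_eq_fintype_card, ZMod.card_units_eq_totient,
    Nat.totient_prime_pow_succ Nat.prime_two] at h1
  have h2 : 2 ^ (n + 1) * (2 - 1) = 2 ^ n * 2 := by rw [Nat.succ_sub_one, mul_one, pow_succ]
  exact Nat.eq_of_mul_eq_mul_right two_pos (h1.trans h2)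

private theorem LyI_mem {R : Type} [CommRing R] (u : Rˣ) :
    u ∈ Subgroup.zpowers (-1 : Rˣ) ↔ u = 1 ∨ u = -1 := by
  constructor
  · rintro ⟨k, rfl⟩
    have h2 : (-1 : Rˣ) ^ (2 : ℤ) = 1 := by
      rw [zpow_ofNat, sq, neg_mul_neg, one_mul]
    rcases Int.even_or_odd' k with ⟨j, rfl | rfl⟩
    · left
      change (-1 : Rˣ) ^ (2 * j) = 1
      rw [zpow_mul, h2, one_zpow]
    · right
      change (-1 : Rˣ) ^ (2 * j + 1) = -1
      rw [zpow_add, zpow_mul, h2, one_zpow, one_mul, zpow_one]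
  · rintro (rfl | rfl)
    · exact Subgroup.one_mem _
    · exact Subgroup.mem_zpowers _

private theorem LyI_one (k t : ℕ) : Nm (1 : OO k t) = 1 := Nm_one

theorem pLyI : S_LyI := by
  intro hNoC hTFix hGalI hNiL hPs hAr2 hO1 hO2 hO6 hO7 hO9 hE1 hE6 hE7 hE8 hLay k t _ f H hf h15 hH n
  have hf0 : 0 < f := hf.pos
  have hf2 : 0 < 2 * f := by positivity
  have h2N : 0 < 2 ^ (n + 2) := pow_pos two_pos _
  have hM : 0 < f * 2 ^ (n + 2) := Nat.mul_pos hf0 h2N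
  have hno := hNoC hTFix hO6 hO9 hE1 hE6 k t
  have hNice := hNiL hO1 hO2 hO6 hO7 hO9 k t f H hf0 hH n
  obtain ⟨Lfin, -, LGK, Lmem, -, -, -, -⟩ := hGalI hO7 hE1 hE8 hPs k t (2 * f) H hf2 (d15' h15) hH
  obtain ⟨Ffin, -, FGK, Fmem, -, -, -, -⟩ := hGalI hO7 hE1 hE8 hPs k t _ _ hM (d15 h15 _) hNice
  obtain ⟨-, hPs1, -, -, -⟩ := hPs hO7 hE1 k t _ hM (d15 h15 _)
  obtain ⟨ps1, -, -, -, -⟩ := hPs hO7 hE1 k t _ hM (d15 h15 _)
  obtain ⟨e1, e2, e3, e4, e5⟩ := hE1 k t _ hM (d15 h15 _)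
  obtain ⟨-, nm0, nmz, nmI, nIm, nI0, -, -⟩ := hO2 k t
  obtain ⟨o1, o2, o3, o4, -⟩ := hO6 k t
  change (LyI f n H).fixingSubgroup ≤ GK k t at FGK
  change FiniteDimensional ℚ (LyI f n H) at Ffin
  have hNI1 : NI (⊤ : Ideal (OO k t)) = 1 := by
    have h1 := nmI (1 : OO k t)
    rw [sp, Ideal.span_singleton_one] at h1
    rw [LyI_one] at h1
    exact_mod_cast h1
  have down : ∀ (τ : Gal(Om/ℚ)) (a : Ideal (OO k t)), Psi τ (f * 2 ^ (n + 2)) a → Psi τ (2 * f) a :=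
    fun τ a h => e5 τ (2 * f) a h (d2f f n) (d15' h15)
  have hFL : (LyI f n H).fixingSubgroup ≤ (FixI (2 * f) H).fixingSubgroup := by
    intro τ hτ
    obtain ⟨a, ha⟩ := e1 τ (FGK hτ)
    have hHa := (Fmem τ (FGK hτ) a ha).1 hτ
    exact (Lmem τ (FGK hτ) a (down τ a ha)).2 hHa.1
  -- the second part of `S_Lay`
  obtain ⟨-, hlay⟩ := hLay 2 (FixI (2 * f) H) Lfin
  -- the norm
  have key : ∀ (τ : Gal(Om/ℚ)) (a a' : Ideal (OO k t)), Psi τ (f * 2 ^ (n + 2)) a →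
      Psi τ (f * 2 ^ (n + 2)) a' →
      ((NI a : ℤ) : ZMod (2 ^ (n + 2))) = ((NI a' : ℤ) : ZMod (2 ^ (n + 2))) := by
    intro τ a a' h h'
    have h1 := hO9 k t _ hM a a' (psi_cop h) (psi_cop h') (e2 τ a a' h h')
    have h2 : ((2 ^ (n + 2) : ℕ) : ℤ) ∣ (NI a : ℤ) - NI a' := by
      refine dvd_trans ?_ h1
      exact_mod_cast Dvd.intro_left f rfl
    exact ((ZMod.intCast_eq_intCast_iff_dvd_sub _ _ _).2 h2).symm
  have hex : ∀ τ : (FixI (2 * f) H).fixingSubgroup, ∃ a : Ideal (OO k t),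
      Psi (τ : Gal(Om/ℚ)) (f * 2 ^ (n + 2)) a := fun τ => e1 τ (LGK τ.2)
  choose α hα using hex
  let φ0 : (FixI (2 * f) H).fixingSubgroup →* ZMod (2 ^ (n + 2)) :=
    { toFun := fun τ => ((NI (α τ) : ℤ) : ZMod (2 ^ (n + 2)))
      map_one' := by
        have h1 : Psi ((1 : (FixI (2 * f) H).fixingSubgroup) : Gal(Om/ℚ)) (f * 2 ^ (n + 2))
            (⊤ : Ideal (OO k t)) := ps1
        rw [key _ _ _ (hα 1) h1, hNI1]
        norm_num
      map_mul' := by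
        intro τ σ
        have h1 : Psi ((τ * σ : (FixI (2 * f) H).fixingSubgroup) : Gal(Om/ℚ)) (f * 2 ^ (n + 2))
            (α τ * α σ) := e4 _ _ _ _ (hα τ) (hα σ)
        rw [key _ _ _ (hα (τ * σ)) h1, nIm]
        push_cast
        rfl }
  let φ : (FixI (2 * f) H).fixingSubgroup →* (ZMod (2 ^ (n + 2)))ˣ := φ0.toHomUnits
  have hφ : ∀ τ, ((φ τ : (ZMod (2 ^ (n + 2)))ˣ) : ZMod (2 ^ (n + 2))) =
      ((NI (α τ) : ℤ) : ZMod (2 ^ (n + 2))) := fun τ => rfl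
  have hsurj : Function.Surjective φ := by
    intro u
    have hne : NeZero (2 ^ (n + 2)) := ⟨h2N.ne'⟩
    have hcop := ZMod.val_coe_unit_coprime u
    have hodd : Odd (u : ZMod (2 ^ (n + 2))).val := by
      rw [Nat.coprime_pow_right_iff (by omega), Nat.coprime_comm, Nat.coprime_two_left] at hcop
      exact hcop
    obtain ⟨v, hv1, hv2⟩ := (hAr2 k t).2 f (n + 2) ((u : ZMod (2 ^ (n + 2))).val : ℤ) hf
      (by exact_mod_cast hodd)
    have hNv : Odd (Nm v) := by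
      have h1 : (2 : ℤ) ∣ Nm v - ((u : ZMod (2 ^ (n + 2))).val : ℤ) :=
        dvd_trans (dvd_pow_self 2 (by omega)) hv2
      obtain ⟨m, hm⟩ := hodd
      obtain ⟨m', hm'⟩ := h1
      refine ⟨m + m', ?_⟩
      rw [hm] at hm'
      push_cast at hm'
      linarith
    have hv0 : v ≠ 0 := by
      intro h
      rw [h] at hNv
      have h1 : Nm (0 : OO k t) = 0 := (nmz 0).2 rfl
      rw [h1] at hNv
      exact absurd hNv (by decide)
    -- the class of `v` modulo `2 f`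
    have hcf : PrI (sp v) (2 * f) := by
      change sp v ⊔ Ideal.span {((2 * f : ℕ) : OO k t)} = ⊤
      rw [Ideal.eq_top_iff_one]
      obtain ⟨w, hw⟩ := hv1
      have h1 : (1 : OO k t) = v + -(((2 * f : ℕ) : OO k t) * w) := by rw [← hw]; ring
      rw [h1]
      exact Submodule.add_mem_sup (Ideal.mem_span_singleton_self v)
        (neg_mem (Ideal.mul_mem_right w _ (Ideal.mem_span_singleton_self _)))
    have hcv2 : Cop v (2 * f) := (o4 (2 * f) v hf2).1 hcf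
    have hcvf : Cop v f := cop_dvd hcv2 (dvd_mul_left f 2)
    have hcv : Cop v (f * 2 ^ (n + 2)) := by
      change IsCoprime (Nm v) ((f * 2 ^ (n + 2) : ℕ) : ℤ)
      push_cast
      refine IsCoprime.mul_right hcvf ?_
      exact IsCoprime.pow_right (Int.isCoprime_iff_gcd_eq_one.2 (by
        rw [Int.gcd_comm]
        exact Int.isCoprime_iff_gcd_eq_one.1 ((Int.prime_two.coprime_iff_not_dvd).2 (by
          intro h
          obtain ⟨m, hm⟩ := hNv
          omega))))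
    have hpv : PrI (sp v) (f * 2 ^ (n + 2)) := (o4 _ v hM).2 hcv
    have hsv : (sp v : Ideal (OO k t)) ≠ ⊥ := by
      intro h
      exact hv0 (Ideal.span_singleton_eq_bot.1 h)
    have hray : Ray (2 * f) (⊤ : Ideal (OO k t)) (sp v) := by
      refine ⟨v, 1, hv0, one_ne_zero, hcv2, ?_, hv1, ?_⟩
      · change IsCoprime (Nm (1 : OO k t)) ((2 * f : ℕ) : ℤ)
        rw [LyI_one]
        exact isCoprime_one_left
      · rw [Ideal.mul_top]
        change sp v = Ideal.span {(1 : OO k t)} * sp v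
        rw [Ideal.span_singleton_one, Ideal.top_mul]
    have hHv : H (sp v) := hH.ray _ _ hH.top hray
    obtain ⟨τ, hτ, hτ'⟩ := hE7 k t _ (sp v) hM (d15 h15 _) hsv hpv
    have hτL : τ ∈ (FixI (2 * f) H).fixingSubgroup := (Lmem τ hτ (sp v) (down τ _ hτ')).2 hHv
    refine ⟨⟨τ, hτL⟩, ?_⟩
    apply Units.ext
    rw [hφ, key _ _ _ (hα ⟨τ, hτL⟩) hτ', nmI]
    have h3 : ((2 ^ (n + 2) : ℕ) : ℤ) ∣ Nm v - ((u : ZMod (2 ^ (n + 2))).val : ℤ) := by
      push_cast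
      exact hv2
    rw [← (ZMod.intCast_eq_intCast_iff_dvd_sub _ _ _).2 h3, Int.cast_natCast, ZMod.natCast_zmod_val]
  -- `Y` as a preimage
  have hY : (LyI f n H).fixingSubgroup.subgroupOf (FixI (2 * f) H).fixingSubgroup =
      (Subgroup.zpowers (-1 : (ZMod (2 ^ (n + 2)))ˣ)).comap φ := by
    ext τ
    rw [Subgroup.mem_subgroupOf, Subgroup.mem_comap, LyI_mem]
    have h1 : ((τ : Gal(Om/ℚ)) ∈ (LyI f n H).fixingSubgroup ↔ _) :=
      Fmem τ (LGK τ.2) (α τ) (hα τ)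
    have h2 : H (α τ) := (Lmem τ (LGK τ.2) (α τ) (down _ _ (hα τ))).1 τ.2
    rw [h1, Units.ext_iff, Units.ext_iff, hφ, Units.val_neg, Units.val_one]
    have h3 : ((2 : ℤ) ^ (n + 2) ∣ (NI (α τ) : ℤ) - 1) ↔
        ((NI (α τ) : ℤ) : ZMod (2 ^ (n + 2))) = 1 := by
      have h4 := ZMod.intCast_eq_intCast_iff_dvd_sub 1 (NI (α τ) : ℤ) (2 ^ (n + 2))
      rw [← Nat.cast_two, ← Nat.cast_pow, ← h4, Int.cast_one, eq_comm]
    have h5 : ((2 : ℤ) ^ (n + 2) ∣ (NI (α τ) : ℤ) + 1) ↔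
        ((NI (α τ) : ℤ) : ZMod (2 ^ (n + 2))) = -1 := by
      have h4 := ZMod.intCast_eq_intCast_iff_dvd_sub (-1) (NI (α τ) : ℤ) (2 ^ (n + 2))
      rw [sub_neg_eq_add] at h4
      rw [← Nat.cast_two, ← Nat.cast_pow, ← h4, Int.cast_neg, Int.cast_one, eq_comm]
    change H (α τ) ∧ ((2 : ℤ) ^ (n + 2) ∣ (NI (α τ) : ℤ) - 1 ∨
      (2 : ℤ) ^ (n + 2) ∣ (NI (α τ) : ℤ) + 1) ↔ _
    rw [h3, h5]
    exact ⟨fun h => h.2, fun h => ⟨h2, h⟩⟩
  obtain ⟨F', hF', hF'2⟩ := hlay n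
    ((LyI f n H).fixingSubgroup.subgroupOf (FixI (2 * f) H).fixingSubgroup)
    ((IntermediateField.fixingSubgroup_isOpen (LyI f n H)).preimage continuous_subtype_val)
    (by
      intro τ hτ
      rw [Subgroup.mem_subgroupOf, fix_cyc] at hτ
      obtain ⟨h1, h2⟩ := hτ
      have h3 := hno τ (LGK h1) h2 f (n + 2) (α τ) hf0 h15 (hα τ)
      have h4 : H (α τ) := (Lmem τ (LGK τ.2) (α τ) (down _ _ (hα τ))).1 τ.2
      exact (Fmem τ (LGK τ.2) (α τ) (hα τ)).2 ⟨h4, h3⟩)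
    (by rw [hY, Subgroup.index_comap_of_surjective _ hsurj, LyI_index])
  have hLF' : F'.fixingSubgroup ≤ (FixI (2 * f) H).fixingSubgroup :=
    IntermediateField.fixingSubgroup_le hF'.1
  have heq : F'.fixingSubgroup = (LyI f n H).fixingSubgroup := by
    rw [← Subgroup.map_subgroupOf_eq_of_le hLF', hF'2, Subgroup.map_subgroupOf_eq_of_le hFL]
  have heq2 : F' = LyI f n H := by
    rw [← InfiniteGalois.fixedField_fixingSubgroup F', heq,
      InfiniteGalois.fixedField_fixingSubgroup]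
  rw [← heq2]
  exact hF'

end Pool.Agent.DN.PI
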