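import Pool.Agent.Lib.DN.PI.SpecC

/-!
# THEOREM DN, Part I: coprimality (auxiliary)
-/

set_option autoImplicit false

open scoped Pointwise

namespace Pool.Agent.DN.PI

open Pool.Agent.MuZ Pool.Agent.DN

variable {k t : ℕ}

theorem pri_dvd {a : Ideal (OO k t)} {N M : ℕ} (h : PrI a M) (hd : N ∣ M) : PrI a N := by
  unfold PrI at *
  rw [eq_top_iff, ← h]
  refine sup_le_sup_left ?_ _
  rw [Ideal.span_singleton_le_span_singleton]
  exact Nat.cast_dvd_cast hd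

theorem psi_cop {τ : Gal(Om/ℚ)} {N : ℕ} {a : Ideal (OO k t)} (h : Psi τ N a) : PrI a N :=
  pri_dvd h.cop (dvd_mul_left N 15)

theorem ne_one' (k t : ℕ) : ((2 * 15 : ℕ) : OO k t) = 30 := by norm_num

theorem d15 {f : ℕ} (h : 15 ∣ f) (n : ℕ) : 15 ∣ f * n := h.mul_right n

theorem d15' {f : ℕ} (h : 15 ∣ f) : 15 ∣ 2 * f := h.mul_left 2

theorem d2f (f n : ℕ) : 2 * f ∣ f * 2 ^ (n + 2) := ⟨2 ^ (n + 1), by ring⟩

end Pool.Agent.DN.PI
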