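import Pool.Agent.Lib.DN.PI.SpecC

/-!
# THEOREM DN, Part I, module NiL: the group of a layer is nice
-/

set_option autoImplicit false

open scoped Pointwise

namespace Pool.Agent.DN.PI

open Pool.Agent.MuZ Pool.Agent.DN

theorem pNiL : S_NiL := by
  intro hO1 hO2 hO6 hO7 hO9 k t _ f H hf hH n
  obtain ⟨-, -, -, h4, h5, -, -, -⟩ := hO2 k t
  obtain ⟨p1, p2, p3, -, -⟩ := hO6 k t
  have hpos : 0 < f * 2 ^ (n + 2) := by positivity
  have hdvd : (2 ^ (n + 2)) ∣ f * 2 ^ (n + 2) := Dvd.intro_left f rfl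
  have hdvd2 : 2 * f ∣ f * 2 ^ (n + 2) := ⟨2 ^ (n + 1), by ring⟩
  have hcf : ∀ a : Ideal (OO k t), H a → PrI a f := fun a ha => ((p2 2 f a).1 (hH.cop a ha).2).2
  obtain ⟨-, -, -, -, -, r6, r7, -, -, -⟩ := hO7 k t (f * 2 ^ (n + 2)) hpos
  have htop : NI (⊤ : Ideal (OO k t)) = 1 := by
    unfold NI
    rw [Nat.card_eq_one_iff_unique]
    exact ⟨Ideal.Quotient.subsingleton_iff.2 rfl, inferInstance⟩
  have hcop : ∀ a : Ideal (OO k t), Nm1 (n + 2) a → PrI a (2 ^ (n + 2)) := by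
    intro a ha
    refine (p3 (2 ^ (n + 2)) a (by positivity)).2 ?_
    rw [← Nat.isCoprime_iff_coprime]
    push_cast
    rcases ha with ⟨l, hl⟩ | ⟨l, hl⟩
    · exact ⟨1, -l, by linear_combination hl⟩
    · exact ⟨-1, l, by linear_combination -hl⟩
  refine ⟨⟨hH.top, Or.inl ?_⟩, ?_, ?_, ?_⟩
  · rw [htop, Nat.cast_one, sub_self]
    exact dvd_zero _
  · rintro a ⟨ha, hn⟩
    exact ⟨(hH.cop a ha).1, (p2 f (2 ^ (n + 2)) a).2 ⟨hcf a ha, hcop a hn⟩⟩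
  · rintro a a' ⟨ha, hn⟩ hr
    refine ⟨hH.ray a a' ha (r7 (2 * f) a a' hdvd2 hr), ?_⟩
    have hPa : PrI a (f * 2 ^ (n + 2)) := (p2 f (2 ^ (n + 2)) a).2 ⟨hcf a ha, hcop a hn⟩
    have hPa' : PrI a' (f * 2 ^ (n + 2)) := (r6 a a' hr).2.1 hPa
    have h9 := hO9 k t (f * 2 ^ (n + 2)) hpos a a' hPa hPa' hr
    have h10 : ((2 : ℤ) ^ (n + 2)) ∣ (NI a : ℤ) - NI a' := by
      refine dvd_trans ?_ h9
      exact_mod_cast hdvd
    obtain ⟨c, hc⟩ := h10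
    rcases hn with ⟨l, hl⟩ | ⟨l, hl⟩
    · exact Or.inl ⟨l - c, by linear_combination hl - hc⟩
    · exact Or.inr ⟨l - c, by linear_combination hl - hc⟩
  · rintro a b ⟨ha, hn⟩ ⟨hb, hm⟩
    refine ⟨hH.mul a b ha hb, ?_⟩
    have h11 : (NI (a * b) : ℤ) = NI a * NI b := by
      rw [h5]
      push_cast
      rfl
    show (2 : ℤ) ^ (n + 2) ∣ (NI (a * b) : ℤ) - 1 ∨ (2 : ℤ) ^ (n + 2) ∣ (NI (a * b) : ℤ) + 1
    rw [h11]
    rcases hn with ⟨c, hc⟩ | ⟨c, hc⟩ <;> rcases hm with ⟨l, hl⟩ | ⟨l, hl⟩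
    · exact Or.inl ⟨c * NI b + l, by linear_combination (NI b : ℤ) * hc + hl⟩
    · exact Or.inr ⟨c * NI b + l, by linear_combination (NI b : ℤ) * hc + hl⟩
    · exact Or.inr ⟨c * NI b - l, by linear_combination (NI b : ℤ) * hc - hl⟩
    · exact Or.inl ⟨c * NI b - l, by linear_combination (NI b : ℤ) * hc - hl⟩

end Pool.Agent.DN.PI
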