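import Pool.Agent.Lib.DN.PI.SpecD

set_option autoImplicit false

/-!
# THEOREM DN, Part I: the cross ratios
-/

open scoped Pointwise

noncomputable section

namespace Pool.Agent.DN.PI

open Pool.Agent.MuZ Pool.Agent.DN
open Pool.Agent.DI (io ofC io_inj exists_io io_ofC ofC_io VP MP UP TP ex sqr sqr_sq kap)

private theorem We_alg {p1 p2 p3 q f x1 x2 x3 : ℂ} (hf : f ≠ 0) (h1 : x1 = (p1 - q) / f ^ 2)
    (h2 : x2 = (p2 - q) / f ^ 2) (h3 : x3 = (p3 - q) / f ^ 2) :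
    (x1 - x2) / (x3 - x2) = (p1 - p2) / (p3 - p2) := by
  have hf2 : f ^ 2 ≠ 0 := pow_ne_zero 2 hf
  have e1 : x1 - x2 = (p1 - p2) / f ^ 2 := by rw [h1, h2]; ring
  have e2 : x3 - x2 = (p3 - p2) / f ^ 2 := by rw [h3, h2]; ring
  rw [e1, e2, div_div_div_cancel_right₀ hf2]

theorem pWe : S_We := by
  intro l1 l2 b1 r1 k t _ M hM h15 ⟨hx, _⟩ z₁ z₂ z₃ hz1 hz2 hz3 hM1 hM2 hM3
  have ht : (⊤ : Ideal (OO k t)) ≠ ⊥ := top_ne_bot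
  have ht15 : PrI (⊤ : Ideal (OO k t)) 15 := top_sup_eq _
  have hG : G15 (⊤ : Ideal (OO k t)) := ⟨ht, ht15⟩
  have hfr : fr (⊤ : Ideal (OO k t)) ≠ 0 := ((b1 k t ⊤ ht).2.2.2.2.2 ht15).1
  have hio : ∀ z : ℂ, (M : ℂ) * z ∈ Lam (⊤ : Ideal (OO k t)) →
      io (xO (⊤ : Ideal (OO k t)) z) = XC (⊤ : Ideal (OO k t)) z := by
    intro z hz
    have hT : Tor k t z := ((l2 k t).2.2.2.2.2.2.2 ⊤ z ht).2 ⟨M, hM, hz⟩
    exact (((r1.1 k t).1 ⊤ hG).2.2.1 z hT).1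
  have e : ofC (crC k t z₁ z₂ z₃) = (xO (⊤ : Ideal (OO k t)) z₁ - xO (⊤ : Ideal (OO k t)) z₂) /
      (xO (⊤ : Ideal (OO k t)) z₃ - xO (⊤ : Ideal (OO k t)) z₂) := by
    rw [← ofC_io ((xO (⊤ : Ideal (OO k t)) z₁ - xO (⊤ : Ideal (OO k t)) z₂) /
      (xO (⊤ : Ideal (OO k t)) z₃ - xO (⊤ : Ideal (OO k t)) z₂))]
    congr 1
    rw [map_div₀, map_sub, map_sub, hio z₁ hM1, hio z₂ hM2, hio z₃ hM3]
    unfold crC
    exact (We_alg hfr rfl rfl rfl).symm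
  rw [e]
  exact div_mem (sub_mem (hx z₁ hz1 hM1) (hx z₂ hz2 hM2)) (sub_mem (hx z₃ hz3 hM3) (hx z₂ hz2 hM2))

end Pool.Agent.DN.PI
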