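import Pool.Agent.Lib.DN.PI.Asm
import Pool.Agent.Lib.DN.PI.Cg
import Pool.Agent.Lib.DN.PI.Ar2
import Pool.Agent.Lib.DN.PI.Ar3
import Pool.Agent.Lib.DN.PI.NiL
import Pool.Agent.Lib.DN.PI.Ps
import Pool.Agent.Lib.DN.PI.GalI
import Pool.Agent.Lib.DN.PI.NoC
import Pool.Agent.Lib.DN.PI.LyI
import Pool.Agent.Lib.DN.PI.KF1
import Pool.Agent.Lib.DN.PI.ExP
import Pool.Agent.Lib.DN.PI.Chi
import Pool.Agent.Lib.DN.PI.LM
import Pool.Agent.Lib.DN.PI.BInv
import Pool.Agent.Lib.DN.PI.BNrm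
import Pool.Agent.Lib.DN.PI.RpT
import Pool.Agent.Lib.DN.PI.AP
import Pool.Agent.Lib.DN.PI.aP
import Pool.Agent.Lib.DN.PI.AThm
import Pool.Agent.Lib.DN.PI.DS
import Pool.Agent.Lib.DN.PI.ANv
import Pool.Agent.Lib.DN.PI.gEx
import Pool.Agent.Lib.DN.PI.HypC
import Pool.Agent.Lib.DN.PI.LK0
import Pool.Agent.Lib.DN.PI.KQ0
import Pool.Agent.Lib.DN.PI.RX
import Pool.Agent.Lib.DN.PI.We
import Pool.Agent.Lib.DN.PI.FT
import Pool.Agent.Lib.DN.PI.MN1
import Pool.Agent.Lib.DN.PI.FinD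

/-!
# THEOREM DN, Part I: the final theorem of Part I

`thmDN_of`: Theorem DN, from the statements of the other parts (the structure `AllIn` of `DN/PI/Asm.lean`).
-/

set_option autoImplicit false

namespace Pool.Agent.DN.PI

open Pool.Agent.DN

/-- All statements of Part I. -/
theorem allPI : AllPI where
  Cg := pCg
  Ar2 := pAr2
  Ar3 := pAr3
  NiL := pNiL
  Ps := pPs
  GalI := pGalI
  NoC := pNoC
  LyI := pLyI
  KF1 := pKF1
  ExP := pExP
  Chi := pChi
  LM := pLM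
  BInv := pBInv
  BNrm := pBNrm
  RpT := pRpT
  AP := pAP
  aP := paP
  AThm := pAThm
  DS := pDS
  ANv := pANv
  gEx := pgEx
  HypC := pHypC
  LK0 := pLK0
  KQ0 := pKQ0
  RX := pRX
  We := pWe
  FT := pFT
  MN1 := pMN1
  FinD := pFinD

/-- **The result for the fields `Lf k t f`**, from the statements of the other parts. -/
theorem sI_of (i : AllIn) : S_I := asm_I allPI i

/-- **Theorem DN**, from the statements of the other parts. -/
theorem thmDN_of (i : AllIn) : ThmDN := asm_DN allPI i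

end Pool.Agent.DN.PI
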