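import Pool.Agent.Lib.DN.PI.Cop
import Pool.Agent.Lib.DN.Base

/-!
# THEOREM DN, Part I: norm compatibility of `b n`
-/

set_option autoImplicit false

open scoped Pointwise

namespace Pool.Agent.DN.PI

open Pool.Agent.MuZ Pool.Agent.DN
open Pool.Agent.DI (kap)
open Pool.Agent.DI.PI (Reps)

private theorem BNrm_odd (q z : ℤ) (h1 : q ∣ z - 1 ∨ q ∣ z + 1)
    (h2 : ¬ (q * 2 ∣ z - 1 ∨ q * 2 ∣ z + 1)) :
    ∃ s k : ℤ, (s = 1 ∨ s = -1) ∧ z = s + q * (2 * k + 1) := by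
  rcases h1 with ⟨k, hk⟩ | ⟨k, hk⟩
  · rcases Int.even_or_odd' k with ⟨c, hc | hc⟩
    · refine absurd (Or.inl ⟨c, ?_⟩) h2
      rw [hk, hc]
      ring
    · refine ⟨1, c, Or.inl rfl, ?_⟩
      rw [← hc]
      linarith
  · rcases Int.even_or_odd' k with ⟨c, hc | hc⟩
    · refine absurd (Or.inr ⟨c, ?_⟩) h2
      rw [hk, hc]
      ring
    · refine ⟨-1, c, Or.inr rfl, ?_⟩
      rw [← hc]
      linarith

private theorem BNrm_num (m x y : ℤ) (hx : 2 * m ∣ x - 1 ∨ 2 * m ∣ x + 1)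
    (hy : 2 * m ∣ y - 1 ∨ 2 * m ∣ y + 1) (hx' : ¬ (2 * m * 2 ∣ x - 1 ∨ 2 * m * 2 ∣ x + 1))
    (hy' : ¬ (2 * m * 2 ∣ y - 1 ∨ 2 * m * 2 ∣ y + 1)) :
    2 * m * 2 ∣ x * y - 1 ∨ 2 * m * 2 ∣ x * y + 1 := by
  obtain ⟨s, k, hs, rfl⟩ := BNrm_odd _ x hx hx'
  obtain ⟨t, l, ht, rfl⟩ := BNrm_odd _ y hy hy'
  rcases hs with rfl | rfl <;> rcases ht with rfl | rfl
  · exact Or.inl ⟨k + l + 1 + m * (2 * k + 1) * (2 * l + 1), by ring⟩
  · exact Or.inr ⟨l - k + m * (2 * k + 1) * (2 * l + 1), by ring⟩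
  · exact Or.inr ⟨k - l + m * (2 * k + 1) * (2 * l + 1), by ring⟩
  · exact Or.inl ⟨-k - l - 1 + m * (2 * k + 1) * (2 * l + 1), by ring⟩

theorem pBNrm : S_BNrm := by
  classical
  intro hInv hG3 hKap hGM hPs hAr2 hO1 hO2 hO6 hO7 hO9 hE1 hE7 k t _ f m P d T hd hGK n σ hσ R hR
  have hf : 0 < f := hd.odd.pos
  have hpos : ∀ N : ℕ, 0 < f * 2 ^ N := fun N => by positivity
  obtain ⟨hM1, hM2, -, -, -, -, hM7, -⟩ := hGM k t f hd.odd hd.fif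
  have hF3 : (Mn k t f (n + 2)).fixingSubgroup ≤ GK k t := hGK n
  have hF5 : ∀ τ ∈ GK k t, ∀ a : Ideal (OO k t), Psi τ (f * 2 ^ (n + 2)) a →
      (τ ∈ (Mn k t f (n + 2)).fixingSubgroup ↔ HPN f (n + 2) a) := by
    intro τ hτ a ha
    rw [IntermediateField.mem_fixingSubgroup_iff]
    exact hM7 (n + 2) (by omega) τ hτ a ha
  have hF5' : ∀ τ ∈ GK k t, ∀ a : Ideal (OO k t), Psi τ (f * 2 ^ (n + 1 + 2)) a →
      (τ ∈ (Mn k t f (n + 1 + 2)).fixingSubgroup ↔ HPN f (n + 1 + 2) a) := by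
    intro τ hτ a ha
    rw [IntermediateField.mem_fixingSubgroup_iff]
    exact hM7 (n + 1 + 2) (by omega) τ hτ a ha
  have hlev : ∀ (τ : Gal(Om/ℚ)) (a : Ideal (OO k t)), Psi τ (f * 2 ^ (n + 1 + 2)) a →
      Psi τ (f * 2 ^ (n + 2)) a := by
    intro τ a h
    refine (hE1 k t _ (hpos (n + 1 + 2)) (d15 hd.fif _)).2.2.2.2 τ _ a h ?_ (d15 hd.fif _)
    exact mul_dvd_mul_left f (pow_dvd_pow 2 (by omega))
  have hmulP : ∀ (τ τ' : Gal(Om/ℚ)) (a a' : Ideal (OO k t)), Psi τ (f * 2 ^ (n + 1 + 2)) a →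
      Psi τ' (f * 2 ^ (n + 1 + 2)) a' → Psi (τ * τ') (f * 2 ^ (n + 1 + 2)) (a * a') :=
    (hE1 k t _ (hpos (n + 1 + 2)) (d15 hd.fif _)).2.2.2.1
  have hPNI : ∀ N : ℕ, 1 ≤ N → ∀ a : Ideal (OO k t), a ≠ ⊥ → PrI a (f * 2 ^ N) → (HPN f N a ↔ HP f a ∧
        ((2 : ℤ) ^ N ∣ (NI a : ℤ) - 1 ∨ (2 : ℤ) ^ N ∣ (NI a : ℤ) + 1)) := fun N h1 => (hM2 N h1).2.2.2.2
  -- an element of `Gal(Om/F)` outside of `Gal(Om/F')`
  have hout : ∃ τ ∈ (Mn k t f (n + 2)).fixingSubgroup, τ ∉ (Mn k t f (n + 1 + 2)).fixingSubgroup := by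
    have hco : Odd (1 + 2 ^ (n + 2) : ℤ) := by
      refine odd_one.add_even ?_
      exact (even_two).pow_of_ne_zero (by omega)
    obtain ⟨v, hv1, hv2⟩ := (hAr2 k t).2 f (n + 1 + 2) (1 + 2 ^ (n + 2)) hd.odd hco
    obtain ⟨t0, ht⟩ := hv2
    have hNv : Nm v = 1 + 2 ^ (n + 2) * (1 + 2 * t0) := by
      have e : (2 : ℤ) ^ (n + 1 + 2) = 2 ^ (n + 2) * 2 := by ring
      rw [e] at ht
      linear_combination ht
    have hpe : Even ((2 : ℤ) ^ (n + 2)) := (even_two).pow_of_ne_zero (by omega)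
    have hNodd : Odd (Nm v) := by
      rw [hNv]
      exact odd_one.add_even (hpe.mul_right _)
    have hv0 : v ≠ 0 := by
      rintro rfl
      rw [Nm_zero] at hNodd
      exact absurd hNodd (by decide)
    have hc2f : Cop v (2 * f) := by
      refine cop_congr ?_ (cop_one (2 * f))
      rw [← neg_sub]
      exact (dvd_neg).2 hv1
    have hcf : Cop v f := cop_dvd hc2f (dvd_mul_left f 2)
    have hc2 : Cop v (2 ^ (n + 1 + 2)) := by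
      unfold Cop
      push_cast
      refine IsCoprime.pow_right ?_
      obtain ⟨j, hj⟩ := hNodd
      exact ⟨1, -j, by rw [hj]; ring⟩
    have hcM : Cop v (f * 2 ^ (n + 1 + 2)) := by
      unfold Cop at hcf hc2 ⊢
      rw [Nat.cast_mul]
      exact IsCoprime.mul_right hcf hc2
    have hPr : PrI (sp v) (f * 2 ^ (n + 1 + 2)) := ((hO6 k t).2.2.2.1 _ v (hpos _)).2 hcM
    have hsv : sp v ≠ ⊥ := by
      intro h
      exact hv0 (Ideal.span_singleton_eq_bot.1 h)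
    obtain ⟨τ, hτ, hτP⟩ := hE7 k t _ (sp v) (hpos _) (d15 hd.fif _) hsv hPr
    have hHP : HP f (sp v) := by
      refine hM1.2.2.1 ⊤ (sp v) hM1.1 ?_
      have h1 : (⊤ : Ideal (OO k t)) = sp 1 := Ideal.span_singleton_one.symm
      rw [h1]
      refine ((hO7 k t (2 * f) (Nat.mul_pos two_pos hf)).2.2.2.2.2.2.2.1 1 v one_ne_zero hv0
        (cop_one (2 * f)) hc2f).2 ⟨1, Nm_one, ?_⟩
      rw [← neg_sub, one_mul]
      exact (dvd_neg).2 hv1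
    have hNI : (NI (sp v) : ℤ) = Nm v := (hO2 k t).2.2.2.1 v
    have hPr2 : PrI (sp v) (f * 2 ^ (n + 2)) := psi_cop (hlev τ _ hτP)
    refine ⟨τ, ?_, ?_⟩
    · refine (hF5 τ hτ _ (hlev τ _ hτP)).2 ((hPNI _ (by omega) _ hsv hPr2).2 ⟨hHP, Or.inl ?_⟩)
      rw [hNI, hNv]
      exact ⟨1 + 2 * t0, by ring⟩
    · intro h
      have h1 := ((hPNI _ (by omega) _ hsv hPr).1 ((hF5' τ hτ _ hτP).1 h)).2
      rw [hNI, hNv] at h1
      have e : (2 : ℤ) ^ (n + 1 + 2) = 2 ^ (n + 2) * 2 := by ring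
      have hp0 : (2 : ℤ) ^ (n + 2) ≠ 0 := by positivity
      rcases h1 with ⟨c, hc⟩ | ⟨c, hc⟩
      · rw [e] at hc
        have h2 : (2 : ℤ) ^ (n + 2) * (1 + 2 * t0) = 2 ^ (n + 2) * (2 * c) := by linear_combination hc
        have h3 := mul_left_cancel₀ hp0 h2
        omega
      · have e2 : (2 : ℤ) ^ (n + 2) = 4 * 2 ^ n := by ring
        rw [e, e2] at hc
        have h3 : (2 : ℤ) * 1 = 2 * (2 * (2 * 2 ^ n * c - 2 ^ n * (1 + 2 * t0))) := by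
          linear_combination hc
        have h4 := mul_left_cancel₀ (two_ne_zero) h3
        omega
  obtain ⟨τ0, hτ0, hτ0'⟩ := hout
  -- the index is two
  have hidx : ∀ τ ∈ (Mn k t f (n + 2)).fixingSubgroup, τ ∉ (Mn k t f (n + 1 + 2)).fixingSubgroup →
      ∀ τ' ∈ (Mn k t f (n + 2)).fixingSubgroup, τ' ∉ (Mn k t f (n + 1 + 2)).fixingSubgroup →
      τ⁻¹ * τ' ∈ (Mn k t f (n + 1 + 2)).fixingSubgroup := by
    intro τ h1 h2 τ' h1' h2'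
    have g1 : τ⁻¹ ∈ GK k t := inv_mem (hF3 h1)
    have g2 : τ' ∈ GK k t := hF3 h1'
    obtain ⟨b, hb⟩ := (hE1 k t _ (hpos (n + 1 + 2)) (d15 hd.fif _)).1 τ⁻¹ g1
    obtain ⟨a, ha⟩ := (hE1 k t _ (hpos (n + 1 + 2)) (d15 hd.fif _)).1 τ' g2
    have hba := hmulP _ _ _ _ hb ha
    have kb : HPN f (n + 2) b := (hF5 _ g1 _ (hlev _ _ hb)).1 (inv_mem h1)
    have ka : HPN f (n + 2) a := (hF5 _ g2 _ (hlev _ _ ha)).1 h1'
    have kba : HPN f (n + 2) (b * a) :=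
      (hF5 _ (mul_mem g1 g2) _ (hlev _ _ hba)).1 (mul_mem (inv_mem h1) h1')
    have nb : ¬ HPN f (n + 1 + 2) b := by
      intro h
      refine h2 ?_
      have h3 := inv_mem ((hF5' _ g1 _ hb).2 h)
      rwa [inv_inv] at h3
    have na : ¬ HPN f (n + 1 + 2) a := by
      intro h
      exact h2' ((hF5' _ g2 _ ha).2 h)
    refine (hF5' _ (mul_mem g1 g2) _ hba).2 ?_
    have jb := (hPNI _ (by omega) _ hb.ne (psi_cop (hlev _ _ hb))).1 kb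
    have ja := (hPNI _ (by omega) _ ha.ne (psi_cop (hlev _ _ ha))).1 ka
    have jba := (hPNI _ (by omega) _ hba.ne (psi_cop (hlev _ _ hba))).1 kba
    have e1 : (2 : ℤ) ^ (n + 2) = 2 * 2 ^ (n + 1) := by ring
    have e2 : (2 : ℤ) ^ (n + 1 + 2) = 2 * 2 ^ (n + 1) * 2 := by ring
    have hb' : ¬ (2 * 2 ^ (n + 1) * 2 ∣ (NI b : ℤ) - 1 ∨ 2 * 2 ^ (n + 1) * 2 ∣ (NI b : ℤ) + 1) := by
      intro h
      refine nb ((hPNI _ (by omega) _ hb.ne (psi_cop hb)).2 ⟨jb.1, ?_⟩)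
      rw [e2]
      exact h
    have ha' : ¬ (2 * 2 ^ (n + 1) * 2 ∣ (NI a : ℤ) - 1 ∨ 2 * 2 ^ (n + 1) * 2 ∣ (NI a : ℤ) + 1) := by
      intro h
      refine na ((hPNI _ (by omega) _ ha.ne (psi_cop ha)).2 ⟨ja.1, ?_⟩)
      rw [e2]
      exact h
    refine (hPNI _ (by omega) _ hba.ne (psi_cop hba)).2 ⟨jba.1, ?_⟩
    have h3 := jb.2
    have h4 := ja.2
    rw [e1] at h3 h4
    rw [e2, (hO2 k t).2.2.2.2.1, Nat.cast_mul]
    exact BNrm_num _ _ _ h3 h4 hb' ha'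
  -- the two representatives
  obtain ⟨r1, hr1, hr1'⟩ := hR.ex 1 (one_mem _)
  rw [mul_one] at hr1'
  have hr1f : r1 ∈ (Mn k t f (n + 1 + 2)).fixingSubgroup := by
    have h := inv_mem hr1'
    rwa [inv_inv] at h
  obtain ⟨r2, hr2, hr2'⟩ := hR.ex τ0 hτ0
  have hr2f : r2 ∉ (Mn k t f (n + 1 + 2)).fixingSubgroup := by
    intro h
    refine hτ0' ?_
    have h1 := mul_mem h hr2'
    rwa [mul_inv_cancel_left] at h1
  have hne : r1 ≠ r2 := by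
    rintro rfl
    exact hr2f hr1f
  have hRe : R = {r1, r2} := by
    ext r
    simp only [Finset.mem_insert, Finset.mem_singleton]
    constructor
    · intro hr
      by_cases h : r ∈ (Mn k t f (n + 1 + 2)).fixingSubgroup
      · left
        exact hR.uni r hr r1 hr1 (mul_mem (inv_mem h) hr1f)
      · right
        exact hR.uni r hr r2 hr2 (hidx r (hR.mem r hr) h r2 (hR.mem r2 hr2) hr2f)
    · rintro (rfl | rfl)
      · exact hr1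
      · exact hr2
  rw [hRe, Finset.sum_pair hne]
  -- the units
  obtain ⟨hI1, hI2⟩ := hInv hG3 hE1 hO6 k t f m P d T hd (n + 1) σ hσ
  have hr2G : r2 ∈ GK k t := hF3 (hR.mem r2 hr2)
  have hsG : r2⁻¹ ∈ GK k t := inv_mem hr2G
  obtain ⟨-, hJ2⟩ := hInv hG3 hE1 hO6 k t f m P d T hd (n + 1) (σ * r2) (mul_mem hσ hr2G)
  obtain ⟨a, ha⟩ := (hE1 k t _ (hpos (n + 1 + 2)) (d15 hd.fif _)).1 σ⁻¹ (inv_mem hσ)
  obtain ⟨a', ha'⟩ := (hE1 k t _ (hpos (n + 1 + 2)) (d15 hd.fif _)).1 r2⁻¹ hsG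
  obtain ⟨hc1, hc2⟩ := hI2 a ha
  have hmul : Psi (σ * r2)⁻¹ (f * 2 ^ (n + 1 + 2)) (a' * a) := by
    rw [mul_inv_rev]
    exact hmulP _ _ _ _ ha' ha
  obtain ⟨hc3, hc4⟩ := hJ2 _ hmul
  obtain ⟨-, hc6⟩ := (hInv hG3 hE1 hO6 k t f m P d T hd n σ hσ).2 a (hlev _ _ ha)
  rw [hI1 r1 hr1f, hc2, hc4, hc6]
  have hG := hG3 k t f m (n + 1 + 2) (T (n + 1)) hd.odd hd.fif hd.mne hd.m2 hd.mf (by omega)
    (hd.rep (n + 1))
  obtain ⟨hx1, hx2, -, -, -, hx6, -, -⟩ := hG a hc1.1 hc1.2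
  obtain ⟨hz1, hz2, -, -, -, -, -, -⟩ := hG (a' * a) hc3.1 hc3.2
  obtain ⟨-, -, -, -, -, -, -, hy8⟩ := hG3 k t f m (n + 2) (T n) hd.odd hd.fif hd.mne hd.m2 hd.mf
    (by omega) (hd.rep n) a hc1.1 hc1.2
  have hsx := hx6 _ hsG a' ha'
  have hb3 := hy8 (T (n + 1)) (hd.rep (n + 1)) r2⁻¹ hsG a' ha'
    ((hF5 _ hsG _ (hlev _ _ ha')).1 (inv_mem (hR.mem r2 hr2))) (by
      intro h
      refine hr2f ?_
      have h3 := inv_mem ((hF5' _ hsG _ ha').2 h)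
      rwa [inv_inv] at h3)
  rw [← hKap.1 d _ _ hx2 hz2 (hd.fix _ _ hx1) (hd.fix _ _ hz1), ← hsx]
  exact congrArg (fun x => kap x d) hb3

end Pool.Agent.DN.PI
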