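import Pool.Agent.Lib.DI.PI.SpecC
import Pool.Agent.Lib.DN.IfaceG
import Pool.Agent.Lib.DN.IfaceH

/-!
# THEOREM DN, Part I (helper55), chapter C: from Thaine's argument to the hypothesis of the descent

Every `S_<Name>` is proved in its own module `Pool/Agent/Lib/DN/PI/<Name>.lean`, namespace `Pool.Agent.DN.PI`,
theorem `p<Name> : S_<Name>`; the statements named as hypotheses only have to be introduced. `S_O1`, ..., `S_E9` are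
the statements of `DN/Iface.lean`, `S_G3`, `S_GM`, `S_GR`, `S_G` of `DN/IfaceG.lean`, `S_H` of `DN/IfaceH.lean` (proved
by other parts). All modules are EDITS of the modules `Pool/Agent/Lib/DK/PI/*.lean` of Theorem DK (same names; the
proofs are explained in `DK/PI/SpecC.lean`, `DK/PI/SpecD.lean`). The ring parameters are `k t` (`OO k t`, `[Ine k t]`).
CHANGES AGAINST DK: (1) `f` is odd and divisible by `15` (instead of `3 ≤ f`). (2) `H2 f`, `HP f`, `Lf k t f`, `Mf k t f` and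
the characters are modulo `2 * f` (in DK: modulo `f`); the groups `HPN f N`, `H2N f N`, the fields `Mn`, `Ln` are modulo
`f * 2 ^ N` as in DK, `1 ≤ N`. (3) `Psi τ N a` is used only for `15 ∣ N`. (4) `v = 1` modulo `2 f` is possible for all norms
modulo `2 ^ N` (`S_Ar2`). (5) `K` is the layer `0` for `f = 15` (`Kn k t n = LyI 15 n _`). (6) `P` is any prime above `2`.
-/

set_option autoImplicit false

open scoped Pointwise nonZeroDivisors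

noncomputable section

namespace Pool.Agent.DN.PI

open Pool.Agent.MuZ Pool.Agent.DN NumberField IsDedekindDomain
open Pool.Agent.DI (io ofC io_inj exists_io io_ofC ofC_io VP MP UP TP ex sqr sqr_sq kap)
open Pool.Agent.DI.PI (Reps HypI Meas tr)

/-- The ideals prime to `N`. -/
abbrev Gd {k t : ℕ} (N : ℕ) (a : Ideal (OO k t)) : Prop := a ≠ ⊥ ∧ PrI a N

/-- The norm of `a` is `±1` modulo `2 ^ N`. -/
abbrev Nm1 {k t : ℕ} (N : ℕ) (a : Ideal (OO k t)) : Prop :=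
  (2 : ℤ) ^ N ∣ (NI a : ℤ) - 1 ∨ (2 : ℤ) ^ N ∣ (NI a : ℤ) + 1

/-- `H` is (the property of belonging to) a group of ray classes modulo `N`. -/
structure NiceI {k t : ℕ} (N : ℕ) (H : Ideal (OO k t) → Prop) : Prop where
  top : H ⊤
  cop : ∀ a, H a → a ≠ ⊥ ∧ PrI a N
  ray : ∀ a a', H a → Ray N a a' → H a'
  mul : ∀ a a', H a → H a' → H (a * a')

/-- The layers of the cyclotomic `ℤ_2`-extension of `FixI (2 f) H`. (`LyI f n (H2 f) = Ln k t f (n + 2)` by `rfl`.) -/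
def LyI {k t : ℕ} (f n : ℕ) (H : Ideal (OO k t) → Prop) : IntermediateField ℚ Om :=
  FixI (f * 2 ^ (n + 2)) (fun a => H a ∧ Nm1 (n + 2) a)

/-- The layers of the cyclotomic `ℤ_2`-extension of `K`. -/
def Kn (k t n : ℕ) : IntermediateField ℚ Om := LyI (k := k) (t := t) 15 n (Gd (2 * 15))

example (k t f n : ℕ) : LyI f n (H2 (n := k) (t := t) f) = Ln k t f (n + 2) := rfl

/-- A chosen system of representatives of the classes `g H`, `g ∈ W`. -/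
def rsys {G : Type} [Group G] (W H : Subgroup G) : Finset G := by
  classical
  exact if h : ∃ R, Reps W H R then h.choose else ∅

/-- (100 lines) **The ray class group.** -/
def S_Cg : Prop :=
  S_O1 → S_O6 → S_O7 → ∀ (k t : ℕ) [Ine k t] (N : ℕ), 0 < N →
    ∃ (C : Type) (_ : CommGroup C) (_ : Finite C) (c : Ideal (OO k t) → C),
      (∀ a b : Ideal (OO k t), Gd N a → Gd N b → c (a * b) = c a * c b) ∧
      (∀ a b : Ideal (OO k t), Gd N a → Gd N b → (c a = c b ↔ Ray N a b)) ∧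
      ∀ x : C, ∃ a : Ideal (OO k t), Gd N a ∧ c a = x

/-- (100 lines) **Elementary existence.** PROOF of (2): `t = 1` (`Ine.one`), `Nm ⟨1, 2 y⟩ = 1 + 2 (y + 2 k y ^ 2)`;
`y ↦ y + 2 k y ^ 2` is bijective on `ZMod (2 ^ N)` (see DK), so there is `y` with `y + 2 k y ^ 2 ≡ (c - 1) / 2`; then (1) for
`a = 1`, `b = ⟨1, 2 y⟩` modulo `2 ^ (N + 1)`: then `2 ∣ v - 1` and `f ∣ v - 1`, so `2 f ∣ v - 1`. -/
def S_Ar2 : Prop :=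
  ∀ (k t : ℕ) [Ine k t],
    (∀ (f N : ℕ) (a b : OO k t), Odd f →
      ∃ v : OO k t, (f : OO k t) ∣ v - a ∧ ((2 ^ N : ℕ) : OO k t) ∣ v - b) ∧
    ∀ (f N : ℕ) (c : ℤ), Odd f → Odd c →
      ∃ v : OO k t, ((2 * f : ℕ) : OO k t) ∣ v - 1 ∧ (2 : ℤ) ^ N ∣ Nm v - c

/-- (150 lines) **Exponents.** PROOF as in DK; in (2) `Ray (2 f) B ⊤` gives `v` with `B = (v)` and `2 f ∣ v - 1` at once
(`S_O4` is not used). -/
def S_Ar3 : Prop :=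
  S_Cg → S_O1 → S_O2 → S_O6 → S_O7 → ∀ (k t : ℕ) [Ine k t],
    (∀ f : ℕ, Odd f →
      (∃ m : ℕ, Odd m ∧ ∀ a : Ideal (OO k t), Gd (2 * f) a → H2 f (a ^ m)) ∧
      (∀ N : ℕ, ∃ e : ℕ, ∀ a : Ideal (OO k t), Gd (f * 2 ^ N) a → H2 f a →
        Ray (f * 2 ^ N) (a ^ 2 ^ e) ⊤) ∧
      NiceI (2 * f) (H2 (n := k) (t := t) f)) ∧
    ∀ (N : ℕ) (H : Ideal (OO k t) → Prop), 0 < N → NiceI N H → ∀ a, H a → ∃ a', H a' ∧ Ray N (a * a') ⊤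

/-- (60 lines) **The group of a layer.** -/
def S_NiL : Prop :=
  S_O1 → S_O2 → S_O6 → S_O7 → S_O9 → ∀ (k t : ℕ) [Ine k t] (f : ℕ) (H : Ideal (OO k t) → Prop), 0 < f →
    NiceI (2 * f) H → ∀ n : ℕ, NiceI (f * 2 ^ (n + 2)) (fun a => H a ∧ Nm1 (n + 2) a)

/-- (80 lines) **Elementary facts about `Psi`.** -/
def S_Ps : Prop :=
  S_O7 → S_E1 → ∀ (k t : ℕ) [Ine k t] (N : ℕ), 0 < N → 15 ∣ N →
    Psi 1 N (⊤ : Ideal (OO k t)) ∧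
    (∀ τ ∈ GK k t, ∀ a : Ideal (OO k t), Psi τ N a → ∃ a', Psi τ⁻¹ N a' ∧ Ray N (a * a') ⊤) ∧
    (∀ (τ : Gal(Om/ℚ)) (a : Ideal (OO k t)) (n : ℕ), Psi τ N a → Psi (τ ^ n) N (a ^ n)) ∧
    (∀ σ ∈ GK k t, ∀ τ ∈ GK k t, Psi (σ * τ * σ⁻¹ * τ⁻¹) N (⊤ : Ideal (OO k t))) ∧
    ∀ τ ∈ GK k t, ∀ τ' ∈ GK k t, ∀ a a' : Ideal (OO k t), Psi τ N a → Psi τ' N a' → Ray N a a' →
      Psi (τ⁻¹ * τ') N (⊤ : Ideal (OO k t))

/-- (80 lines) **Galois theory for groups of ray classes.** -/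
def S_GalI : Prop :=
  S_O7 → S_E1 → S_E8 → S_Ps → ∀ (k t : ℕ) [Ine k t] (N : ℕ) (H : Ideal (OO k t) → Prop), 0 < N →
    15 ∣ N → NiceI N H →
    FiniteDimensional ℚ (FixI N H) ∧ KQ k t ≤ FixI N H ∧ (FixI N H).fixingSubgroup ≤ GK k t ∧
    (∀ τ ∈ GK k t, ∀ a : Ideal (OO k t), Psi τ N a → (τ ∈ (FixI N H).fixingSubgroup ↔ H a)) ∧
    (∀ x : Om, (∀ τ ∈ GK k t, (∃ a : Ideal (OO k t), Psi τ N a ∧ H a) → τ x = x) → x ∈ FixI N H) ∧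
    (∀ σ ∈ GK k t, ∀ x ∈ FixI N H, σ x ∈ FixI N H) ∧
    (∀ σ ∈ GK k t, ∀ τ ∈ GK k t, σ * τ * σ⁻¹ * τ⁻¹ ∈ (FixI N H).fixingSubgroup) ∧
    ∀ σ ∈ GK k t, ∀ τ ∈ (FixI N H).fixingSubgroup, σ * τ * σ⁻¹ ∈ (FixI N H).fixingSubgroup

/-- (120 lines) **The norm of `a` and `Qcyc 2`.** -/
def S_NoC : Prop :=
  S_TFix → S_O6 → S_O9 → S_E1 → S_E6 → ∀ (k t : ℕ) [Ine k t], ∀ τ ∈ GK k t,
    τ ∈ (Qcyc 2).fixingSubgroup →
    ∀ (M N : ℕ) (a : Ideal (OO k t)), 0 < M → 15 ∣ M → Psi τ (M * 2 ^ N) a → Nm1 N a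

/-- (200 lines) **The layers.** PROOF as in DK; for the surjectivity take `v ≡ 1` modulo `2 f` (`S_Ar2` (2)), `Ray (2 f) ⊤ (sp v)`. -/
def S_LyI : Prop :=
  S_NoC → S_TFix → S_GalI → S_NiL → S_Ps → S_Ar2 → S_O1 → S_O2 → S_O6 → S_O7 → S_O9 → S_E1 → S_E6 →
  S_E7 → S_E8 → S_Lay → ∀ (k t : ℕ) [Ine k t] (f : ℕ) (H : Ideal (OO k t) → Prop), Odd f → 15 ∣ f →
    NiceI (2 * f) H → ∀ n : ℕ, Layer 2 (FixI (2 * f) H) n (LyI f n H)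

/-- (50 lines) **The field `K` as `FixI`.** `NiceI (2 * 15) (Gd (2 * 15))`: `cop` trivial; `ray`: `S_O7` (6); `mul`: `S_O6` (1).
`Psi τ (2 * 15) a` gives `Gd (2 * 15) a` (`Psi.ne`, `Psi.cop`, `S_O6` (2)). -/
def S_KF1 : Prop :=
  S_O1 → S_O6 → S_O7 → S_E1 → S_E8 → S_Ps → S_GalI → ∀ (k t : ℕ) [Ine k t],
    NiceI (2 * 15) (Gd (k := k) (t := t) (2 * 15)) ∧ FixI (2 * 15) (Gd (k := k) (t := t) (2 * 15)) = KQ k t

/-- (40 lines) **A prime above `2` exists.** PROOF. The ideal `(2)` of `ZZ` is not everything (`1 / 2` is not integral,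
see `DI/PI/ExP.lean`); a maximal ideal `P` containing it (`Ideal.exists_le_maximal`), `P ≠ ⊥` as `2 ≠ 0`; `MP P 2`: `b = 1`.
Second part: if `2 b = a` with `a ∈ P`, `b ∉ P` then `2 ∈ P`. -/
def S_ExP : Prop :=
  (∃ P : Ideal ZZ, Ab2 P) ∧ ∀ P : Ideal ZZ, Ab2 P → (2 : ZZ) ∈ P ∧ Npr P ∧ MP P 2

/-- (150 lines) **The lift of a character.** -/
def S_Chi : Prop :=
  DI.PI.S_Tei → S_Ps → S_GalI → S_Ar3 → S_Cg → S_O1 → S_O2 → S_O6 → S_O7 → S_E1 → S_E7 → S_E8 →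
  ∀ (k t : ℕ) [Ine k t] (f : ℕ), Odd f → 15 ∣ f → ∀ P : Ideal ZZ, P.IsPrime → (2 : ZZ) ∈ P →
  ∀ χb : Gal(Om/ℚ) → ZZ ⧸ P, (∀ σ ∈ GK k t, ∀ τ ∈ GK k t, χb (σ * τ) = χb σ * χb τ) →
    (∀ σ ∈ (Lf k t f).fixingSubgroup, χb σ = 1) →
    ∃ χ : Ideal (OO k t) → ZZ, IsChi (2 * f) (fun a => (χ a : Om)) ∧
      (∀ σ ∈ GK k t, ∀ a : Ideal (OO k t), Psi σ⁻¹ (2 * f) a → Ideal.Quotient.mk P (χ a) = χb σ) ∧
      ∃ m : ℕ, Odd m ∧ ∀ σ ∈ GK k t, χb σ ^ m = 1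

/-- The data given by Part G. -/
structure GDat (k t f : ℕ) (m : Ideal (OO k t)) (P : Ideal ZZ) (d : Gal(Om/ℚ))
    (T : ℕ → Finset (OO k t)) : Prop where
  odd : Odd f
  fif : 15 ∣ f
  mne : m ≠ ⊥
  m2 : PrI m 2
  mf : PrI m f
  ab : Ab2 P
  dec : ∀ x : ZZ, x ∈ P → d • x ∈ P
  fix : ∀ n : ℕ, ∀ x ∈ Mn k t f n, d x = x
  fi : ∀ i : Om, i ^ 2 = -1 → d i = i
  rep : ∀ n : ℕ, IsRep f (n + 2) (T n)

/-- The functions `b n` on `Gal(L'_n/K)`. -/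
def bb {k t : ℕ} (f : ℕ) (m : Ideal (OO k t)) (d : Gal(Om/ℚ)) (T : ℕ → Finset (OO k t)) (n : ℕ)
    (σ : Gal(Om/ℚ)) : ZMod 2 :=
  kap (σ⁻¹ (uN f (n + 2) m (T n) ⊤)) d

/-- The functions `A n` on `Gal(L_n/K)`. -/
def AA {k t : ℕ} (f : ℕ) (m : Ideal (OO k t)) (d : Gal(Om/ℚ)) (T : ℕ → Finset (OO k t)) (n : ℕ)
    (σ : Gal(Om/ℚ)) : ZMod 2 :=
  ∑ s ∈ rsys (Ln k t f (n + 2)).fixingSubgroup (Mn k t f (n + 2)).fixingSubgroup, bb f m d T n (σ * s)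

/-- The functions `a n` on `Gal(L_n/K)`. -/
def aG {k t : ℕ} (f : ℕ) (m : Ideal (OO k t)) (d : Gal(Om/ℚ)) (T : ℕ → Finset (OO k t))
    (g : Gal(Om/ℚ)) (n : ℕ) (σ : Gal(Om/ℚ)) : ZMod 2 :=
  AA f m d T n (σ * g⁻¹) + AA f m d T n σ

/-- (80 lines) **The fields `L_n` and `L'_n`.** -/
def S_LM : Prop :=
  S_Cg → S_Ar3 → S_NiL → S_Ps → S_GalI → S_O1 → S_O2 → S_O6 → S_O7 → S_O9 → S_E1 → S_E8 → S_E9 →
  S_GM → ∀ (k t : ℕ) [Ine k t] (f : ℕ), Odd f → 15 ∣ f →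
    (Lf k t f).fixingSubgroup ≤ GK k t ∧
    ∀ n : ℕ,
      (Ln k t f (n + 2)).fixingSubgroup ≤ (Lf k t f).fixingSubgroup ∧
      (Mn k t f (n + 2)).fixingSubgroup ≤ (Ln k t f (n + 2)).fixingSubgroup ∧
      (Mn k t f (n + 2)).fixingSubgroup.relIndex (Ln k t f (n + 2)).fixingSubgroup ≠ 0 ∧
      (Ln k t f (n + 1 + 2)).fixingSubgroup ≤ (Ln k t f (n + 2)).fixingSubgroup ∧
      (Mn k t f (n + 1 + 2)).fixingSubgroup ≤ (Mn k t f (n + 2)).fixingSubgroup ∧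
      (Mn k t f (n + 1 + 2)).fixingSubgroup.relIndex (Mn k t f (n + 2)).fixingSubgroup ≠ 0 ∧
      (∀ σ ∈ GK k t, ∀ τ ∈ (Ln k t f (n + 2)).fixingSubgroup,
        σ * τ * σ⁻¹ ∈ (Ln k t f (n + 2)).fixingSubgroup) ∧
      (∀ σ ∈ GK k t, ∀ τ ∈ (Mn k t f (n + 2)).fixingSubgroup,
        σ * τ * σ⁻¹ ∈ (Mn k t f (n + 2)).fixingSubgroup) ∧
      (∀ σ ∈ GK k t, ∀ τ ∈ GK k t, σ * τ * σ⁻¹ * τ⁻¹ ∈ (Mn k t f (n + 2)).fixingSubgroup) ∧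
      ∀ τ ∈ GK k t, ∀ a : Ideal (OO k t), Psi τ (f * 2 ^ (n + 2)) a →
        (τ ∈ (Mn k t f (n + 2)).fixingSubgroup ↔ HPN f (n + 2) a)

/-- (60 lines) **Invariance of `b n`.** -/
def S_BInv : Prop :=
  S_G3 → S_E1 → S_O6 → ∀ (k t : ℕ) [Ine k t] (f : ℕ) (m : Ideal (OO k t)) (P : Ideal ZZ)
    (d : Gal(Om/ℚ)) (T : ℕ → Finset (OO k t)), GDat k t f m P d T → ∀ n : ℕ, ∀ σ ∈ GK k t,
    (∀ τ ∈ (Mn k t f (n + 2)).fixingSubgroup, bb f m d T n (σ * τ) = bb f m d T n σ) ∧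
    ∀ a : Ideal (OO k t), Psi σ⁻¹ (f * 2 ^ (n + 2)) a → Gd (2 * f) a ∧
      bb f m d T n σ = kap (uN f (n + 2) m (T n) a) d

/-- (150 lines) **Norm compatibility of `b n`.** (The element `v` of the proof in DK is now `1` modulo `2 f`.) -/
def S_BNrm : Prop :=
  S_BInv → S_G3 → DI.PI.S_Kap → S_GM → S_Ps → S_Ar2 → S_O1 → S_O2 → S_O6 → S_O7 → S_O9 → S_E1 →
  S_E7 → ∀ (k t : ℕ) [Ine k t] (f : ℕ) (m : Ideal (OO k t)) (P : Ideal ZZ) (d : Gal(Om/ℚ))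
    (T : ℕ → Finset (OO k t)), GDat k t f m P d T →
    (∀ n : ℕ, (Mn k t f (n + 2)).fixingSubgroup ≤ GK k t) → ∀ n : ℕ, ∀ σ ∈ GK k t,
    ∀ R : Finset Gal(Om/ℚ),
    Reps (Mn k t f (n + 2)).fixingSubgroup (Mn k t f (n + 1 + 2)).fixingSubgroup R →
    ∑ r ∈ R, bb f m d T (n + 1) (σ * r) = bb f m d T n σ

/-- (120 lines) **Sums over representatives in a group.** -/
def S_RpT : Prop :=
  ∀ (G : Type) [Group G] (W H : Subgroup G), H ≤ W →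
    (H.relIndex W ≠ 0 → Reps W H (rsys W H)) ∧
    (∀ t ∈ W, ∀ R : Finset G, Reps W H R → ∃ R' : Finset G, Reps W H R' ∧
      ∀ (A : Type) [AddCommMonoid A] (F : G → A), ∑ r ∈ R', F r = ∑ r ∈ R, F (t * r)) ∧
    (∀ g : G, (∀ x : G, x ∈ W ↔ g * x * g⁻¹ ∈ W) → (∀ x : G, x ∈ H ↔ g * x * g⁻¹ ∈ H) →
      ∀ R : Finset G, Reps W H R → ∃ R' : Finset G, Reps W H R' ∧
        ∀ (A : Type) [AddCommMonoid A] (F : G → A), ∑ r ∈ R', F r = ∑ r ∈ R, F (g * r * g⁻¹)) ∧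
    ∀ g ∈ W, (∀ x : G, x ∈ H ↔ g * x * g⁻¹ ∈ H) → ∀ R : Finset G, Reps W H R →
      ∃ R' : Finset G, Reps W H R' ∧
        ∀ (A : Type) [AddCommMonoid A] (F : G → A), ∑ r ∈ R', F r = ∑ r ∈ R, F (r * g)

/-- (100 lines) **Properties of `A n`.** -/
def S_AP : Prop :=
  DI.PI.S_RpS → S_RpT → ∀ (k t : ℕ) [Ine k t] (f : ℕ) (m : Ideal (OO k t)) (d : Gal(Om/ℚ))
    (T : ℕ → Finset (OO k t)),
    (∀ n : ℕ, ∀ σ ∈ GK k t, ∀ τ ∈ (Mn k t f (n + 2)).fixingSubgroup,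
      bb f m d T n (σ * τ) = bb f m d T n σ) →
    (∀ n : ℕ, ∀ σ ∈ GK k t, ∀ R : Finset Gal(Om/ℚ),
      Reps (Mn k t f (n + 2)).fixingSubgroup (Mn k t f (n + 1 + 2)).fixingSubgroup R →
      ∑ r ∈ R, bb f m d T (n + 1) (σ * r) = bb f m d T n σ) →
    (∀ n : ℕ, (Ln k t f (n + 2)).fixingSubgroup ≤ GK k t ∧
      (Mn k t f (n + 2)).fixingSubgroup ≤ (Ln k t f (n + 2)).fixingSubgroup ∧
      (Mn k t f (n + 2)).fixingSubgroup.relIndex (Ln k t f (n + 2)).fixingSubgroup ≠ 0 ∧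
      (Ln k t f (n + 1 + 2)).fixingSubgroup ≤ (Ln k t f (n + 2)).fixingSubgroup ∧
      (Mn k t f (n + 1 + 2)).fixingSubgroup ≤ (Mn k t f (n + 2)).fixingSubgroup ∧
      (Mn k t f (n + 1 + 2)).fixingSubgroup.relIndex (Mn k t f (n + 2)).fixingSubgroup ≠ 0) →
    ∀ n : ℕ, ∀ σ ∈ GK k t,
      (∀ S : Finset Gal(Om/ℚ),
        Reps (Ln k t f (n + 2)).fixingSubgroup (Mn k t f (n + 2)).fixingSubgroup S →
        AA f m d T n σ = ∑ s ∈ S, bb f m d T n (σ * s)) ∧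
      (∀ τ ∈ (Ln k t f (n + 2)).fixingSubgroup, AA f m d T n (σ * τ) = AA f m d T n σ) ∧
      ∀ R : Finset Gal(Om/ℚ),
        Reps (Ln k t f (n + 2)).fixingSubgroup (Ln k t f (n + 1 + 2)).fixingSubgroup R →
        ∑ r ∈ R, AA f m d T (n + 1) (σ * r) = AA f m d T n σ

/-- (80 lines) **Properties of `a n`.** -/
def S_aP : Prop :=
  S_RpT → ∀ (k t : ℕ) [Ine k t] (f : ℕ) (m : Ideal (OO k t)) (d : Gal(Om/ℚ))
    (T : ℕ → Finset (OO k t)),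
    (∀ n : ℕ, ∀ σ ∈ GK k t,
      (∀ τ ∈ (Ln k t f (n + 2)).fixingSubgroup, AA f m d T n (σ * τ) = AA f m d T n σ) ∧
      ∀ R : Finset Gal(Om/ℚ),
        Reps (Ln k t f (n + 2)).fixingSubgroup (Ln k t f (n + 1 + 2)).fixingSubgroup R →
        ∑ r ∈ R, AA f m d T (n + 1) (σ * r) = AA f m d T n σ) →
    (∀ n : ℕ, (Ln k t f (n + 2)).fixingSubgroup ≤ GK k t ∧
      (Ln k t f (n + 1 + 2)).fixingSubgroup ≤ (Ln k t f (n + 2)).fixingSubgroup ∧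
      ∀ σ ∈ GK k t, ∀ τ ∈ (Ln k t f (n + 2)).fixingSubgroup,
        σ * τ * σ⁻¹ ∈ (Ln k t f (n + 2)).fixingSubgroup) →
    ∀ g ∈ GK k t, ∀ n : ℕ, ∀ σ ∈ GK k t,
      (∀ τ ∈ (Ln k t f (n + 2)).fixingSubgroup, aG f m d T g n (σ * τ) = aG f m d T g n σ) ∧
      ∀ R : Finset Gal(Om/ℚ),
        Reps (Ln k t f (n + 2)).fixingSubgroup (Ln k t f (n + 1 + 2)).fixingSubgroup R →
        ∑ r ∈ R, aG f m d T g (n + 1) (σ * r) = aG f m d T g n σ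

/-- (150 lines) **Thaine's relation for `a n`.** -/
def S_AThm : Prop :=
  S_H → DI.PI.S_RpS → S_RpT → ∀ (k t : ℕ) [Ine k t] (f : ℕ) (m : Ideal (OO k t)) (P : Ideal ZZ)
    (d : Gal(Om/ℚ)) (T : ℕ → Finset (OO k t)), GDat k t f m P d T →
    ∀ n : ℕ, (Ln k t f (n + 2)).fixingSubgroup ≤ GK k t →
    (Mn k t f (n + 2)).fixingSubgroup ≤ (Ln k t f (n + 2)).fixingSubgroup →
    (Mn k t f (n + 2)).fixingSubgroup.relIndex (Ln k t f (n + 2)).fixingSubgroup ≠ 0 →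
    (∀ σ ∈ GK k t, ∀ τ ∈ (Ln k t f (n + 2)).fixingSubgroup,
      σ * τ * σ⁻¹ ∈ (Ln k t f (n + 2)).fixingSubgroup) →
    (∀ σ ∈ GK k t, ∀ τ ∈ (Mn k t f (n + 2)).fixingSubgroup,
      σ * τ * σ⁻¹ ∈ (Mn k t f (n + 2)).fixingSubgroup) →
    (∀ σ ∈ GK k t, ∀ τ ∈ GK k t, σ * τ * σ⁻¹ * τ⁻¹ ∈ (Mn k t f (n + 2)).fixingSubgroup) →
    (∀ σ ∈ GK k t,
      (∀ S : Finset Gal(Om/ℚ),
        Reps (Ln k t f (n + 2)).fixingSubgroup (Mn k t f (n + 2)).fixingSubgroup S →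
        AA f m d T n σ = ∑ s ∈ S, bb f m d T n (σ * s)) ∧
      ∀ τ ∈ (Ln k t f (n + 2)).fixingSubgroup, AA f m d T n (σ * τ) = AA f m d T n σ) →
    ∀ g ∈ GK k t, ∀ φ ∈ VV 2 (Loc 2) (Ln k t f (n + 2)).fixingSubgroup,
      ∀ τ ∈ (Ln k t f (n + 2)).fixingSubgroup, ∀ R : Finset Gal(Om/ℚ),
      Reps (GK k t) (Ln k t f (n + 2)).fixingSubgroup R →
      ∑ r ∈ R, aG f m d T g n r * φ (r * τ * r⁻¹) = 0

/-- (200 lines) **The system `D`.** PROOF as in DK with `Kn k t n = LyI 15 n _` (`15 * 2 ^ N ∣ f * 2 ^ N`), `Ray (2 f)` instead of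
`Ray f`; `ex`: `b` is already prime to `2 f`, so `b₁ = b` (`S_O8` is not needed). -/
def S_DS : Prop :=
  S_Cg → S_Ar2 → S_Ar3 → S_NiL → S_Ps → S_GalI → S_KF1 → S_LM → S_O1 → S_O2 → S_O6 → S_O7 →
  S_O9 → S_E1 → S_E7 → S_E8 → S_E9 → S_GM → ∀ (k t : ℕ) [Ine k t] (f n : ℕ), Odd f → 15 ∣ f →
    (Kn k t n).fixingSubgroup ≤ GK k t ∧
    (Mn k t f (n + 2)).fixingSubgroup ≤ (Kn k t n).fixingSubgroup ∧
    ∀ R : Finset Gal(Om/ℚ), Reps (Kn k t n).fixingSubgroup (Mn k t f (n + 2)).fixingSubgroup R →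
      ∀ c : Gal(Om/ℚ) → Ideal (OO k t), (∀ r ∈ R, Psi r⁻¹ (f * 2 ^ (n + 2)) (c r)) →
        (∀ r ∈ R, ∀ r' ∈ R, c r = c r' → r = r') ∧
          ∃ D : Finset (Ideal (OO k t)), (∀ a, a ∈ D ↔ ∃ r ∈ R, c r = a) ∧ IsDS f (n + 2) D

/-- (150 lines) **The component does not vanish.** -/
def S_ANv : Prop :=
  DI.PI.S_RpS → S_RpT → S_BInv → S_G3 → S_E1 → S_O6 → ∀ (k t : ℕ) [Ine k t] (f : ℕ)
    (m : Ideal (OO k t)) (P : Ideal ZZ) (d : Gal(Om/ℚ)) (T : ℕ → Finset (OO k t)),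
    GDat k t f m P d T → (2 : ZZ) ∈ P →
  ∀ n : ℕ, (Kn k t n).fixingSubgroup ≤ GK k t →
    (Ln k t f (n + 2)).fixingSubgroup ≤ (Kn k t n).fixingSubgroup →
    (Ln k t f (n + 2)).fixingSubgroup ≤ (Lf k t f).fixingSubgroup →
    (Mn k t f (n + 2)).fixingSubgroup ≤ (Ln k t f (n + 2)).fixingSubgroup →
    (Mn k t f (n + 2)).fixingSubgroup.relIndex (Ln k t f (n + 2)).fixingSubgroup ≠ 0 →
    (∀ σ ∈ GK k t, ∀ τ ∈ (Ln k t f (n + 2)).fixingSubgroup,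
      σ * τ * σ⁻¹ ∈ (Ln k t f (n + 2)).fixingSubgroup) →
    (∀ σ ∈ GK k t,
      (∀ S : Finset Gal(Om/ℚ),
        Reps (Ln k t f (n + 2)).fixingSubgroup (Mn k t f (n + 2)).fixingSubgroup S →
        AA f m d T n σ = ∑ s ∈ S, bb f m d T n (σ * s)) ∧
      ∀ τ ∈ (Ln k t f (n + 2)).fixingSubgroup, AA f m d T n (σ * τ) = AA f m d T n σ) →
  ∀ (χb : Gal(Om/ℚ) → ZZ ⧸ P) (χ : Ideal (OO k t) → ZZ),
    (∀ σ ∈ GK k t, ∀ τ ∈ GK k t, χb (σ * τ) = χb σ * χb τ) →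
    (∀ σ ∈ (Lf k t f).fixingSubgroup, χb σ = 1) →
    (∀ σ ∈ GK k t, ∀ a : Ideal (OO k t), Psi σ⁻¹ (2 * f) a → Ideal.Quotient.mk P (χ a) = χb σ) →
  ∀ (R' : Finset Gal(Om/ℚ)) (c : Gal(Om/ℚ) → Ideal (OO k t)) (D : Finset (Ideal (OO k t))),
    Reps (Kn k t n).fixingSubgroup (Mn k t f (n + 2)).fixingSubgroup R' →
    (∀ r ∈ R', Psi r⁻¹ (f * 2 ^ (n + 2)) (c r)) → (∀ r ∈ R', ∀ r' ∈ R', c r = c r' → r = r') →
    (∀ a, a ∈ D ↔ ∃ r ∈ R', c r = a) →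
    ¬ MP P (∑ a ∈ D, (χ a : Om) * ((kap (uN f (n + 2) m (T n) a) d).val : Om)) →
  ∀ g ∈ (Kn k t n).fixingSubgroup, χb g ≠ 1 → ∀ R : Finset Gal(Om/ℚ),
    Reps (Kn k t n).fixingSubgroup (Ln k t f (n + 2)).fixingSubgroup R →
    ∑ r ∈ R, ((aG f m d T g n r).val : ZZ ⧸ P) * χb r ≠ 0

/-- (60 lines) **The element `g`.** -/
def S_gEx : Prop :=
  S_Lay → ∀ (k t : ℕ) [Ine k t] (n : ℕ), FiniteDimensional ℚ (KQ k t) →
    Layer 2 (KQ k t) n (Kn k t n) →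
    (∀ σ ∈ GK k t, ∀ τ ∈ (Kn k t n).fixingSubgroup, σ * τ * σ⁻¹ ∈ (Kn k t n).fixingSubgroup) →
    ∀ (P : Ideal ZZ) (χb : Gal(Om/ℚ) → ZZ ⧸ P),
      (∀ σ ∈ GK k t, ∀ τ ∈ GK k t, χb (σ * τ) = χb σ * χb τ) → χb 1 = 1 →
      (∃ m : ℕ, Odd m ∧ ∀ σ ∈ GK k t, χb σ ^ m = 1) → (∃ σ ∈ GK k t, χb σ ≠ 1) →
      ∃ g ∈ (Kn k t n).fixingSubgroup, χb g ≠ 1

/-- (150 lines) **The hypothesis of the descent for `Lf k t f`.** Assembly. `m := sp q` for a prime number `q` not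
dividing `2 f` (so `q ≠ 3, 5`). -/
def S_HypC : Prop :=
  S_ExP → S_Chi → S_LM → S_BInv → S_BNrm → S_RpT → S_AP → S_aP → S_AThm → S_DS → S_ANv → S_gEx →
  DI.PI.S_RpS → DI.PI.S_Kap → DI.PI.S_Tei → S_Cg → S_Ar2 → S_Ar3 → S_NiL → S_Ps → S_GalI → S_KF1 →
  S_O1 → S_O2 → S_O6 → S_O7 → S_O9 → S_E1 → S_E6 → S_E7 → S_E8 → S_E9 → S_Lay →
  S_GR → S_GM → S_G3 → S_G → S_H → ∀ (k t : ℕ) [Ine k t],
  (∀ (f : ℕ) (H : Ideal (OO k t) → Prop), Odd f → 15 ∣ f → NiceI (2 * f) H → ∀ n : ℕ,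
    Layer 2 (FixI (2 * f) H) n (LyI f n H)) →
  (∀ F : IntermediateField ℚ Om, FiniteDimensional ℚ F →
    ∀ (n : ℕ) (F₁ F₂ : IntermediateField ℚ Om), Layer 2 F n F₁ → Layer 2 F n F₂ → F₁ = F₂) →
  ∀ f : ℕ, Odd f → 15 ∣ f → HypI 2 (KQ k t) (Lf k t f)

/-- (100 lines) **The field `Lf k t f` over `K`.** -/
def S_LK0 : Prop :=
  S_Cg → S_Ar3 → S_Ps → S_GalI → S_O1 → S_O2 → S_O6 → S_O7 → S_E1 → S_E8 →
  ∀ (k t : ℕ) [Ine k t] (f : ℕ), Odd f → 15 ∣ f →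
    FiniteDimensional ℚ (Lf k t f) ∧ KQ k t ≤ Lf k t f ∧
    (∀ σ ∈ (KQ k t).fixingSubgroup, ∀ x ∈ Lf k t f, σ x ∈ Lf k t f) ∧
    (∀ σ ∈ (KQ k t).fixingSubgroup, ∀ τ ∈ (KQ k t).fixingSubgroup, ∀ x ∈ Lf k t f,
      σ (τ x) = τ (σ x)) ∧
    ¬ 2 * Module.finrank ℚ (KQ k t) ∣ Module.finrank ℚ (Lf k t f)

/-- (80 lines) **`μ = 0` for `K`.** `σ (wO k t)` is a root of `X ^ 2 = t X - k`, so it is `wO` or `t - wO`
(`io (wO k t) = wC k t`, `(wC)^2 = t wC - k`; the number is algebraic). -/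
def S_KQ0 : Prop :=
  DI.PI.S_JPe → ThmA → XFinGen 2 (cyc 2 (⊥ : IntermediateField ℚ Om)) → ∀ (k t : ℕ) [Ine k t],
    FiniteDimensional ℚ (KQ k t) ∧ XFinGen 2 (cyc 2 (KQ k t))

end Pool.Agent.DN.PI
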