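import Pool.Agent.Lib.DN.PI.SpecC

/-!
# THEOREM DN, Part I (helper55), chapter D: the ray class fields and the field of the cross ratios

Same conventions as in `SpecC.lean`: `S_<Name>` is proved in the module `Pool/Agent/Lib/DN/PI/<Name>.lean`, theorem
`p<Name> : S_<Name>`; the statements named as hypotheses only have to be introduced.
-/

set_option autoImplicit false

open scoped Pointwise nonZeroDivisors

noncomputable section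

namespace Pool.Agent.DN.PI

open Pool.Agent.MuZ Pool.Agent.DN NumberField IsDedekindDomain
open Pool.Agent.DI (io ofC io_inj exists_io io_ofC ofC_io VP MP UP TP ex sqr sqr_sq kap)

/-- The ray class field modulo `M`, `15 ∣ M` (the field of all elements fixed by the `τ` with `Psi τ M ⊤`). -/
def RCF (k t M : ℕ) : IntermediateField ℚ Om := FixI M (fun a : Ideal (OO k t) => Ray M a ⊤)

/-- (100 lines) **`X(z; O)` is in the ray class field.** Uses `S_O2`, `S_L2`, `S_B1`, `S_B7`. Start from `DK/PI/RX.lean`.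
PROOF. By the definition of `FixI`: let `τ ∈ GK k t`, `Psi τ M a`, `Ray M a ⊤`: `sp α * a = sp α' * ⊤ = sp α'`, `M ∣ α - α'`,
`α, α' ≠ 0`, `Cop α M`. `τ (xO ⊤ z) = xO (a * ⊤) z = xO a z` (`Psi.xx`; `Psi.ne`, `Psi.cop`: `PrI a (15 * M)`, so `PrI a 15`:
`S_O6` (2)). Choose `β` with `M ∣ α β - 1` (`Cop α M`: `x Nm α + y M = 1`, `β = x cjO α`, `S_O2` (7)); then `M ∣ α' β - 1`, `15 ∣ M`,
so `α β` and `α' β` are `1` modulo `3` and modulo `5`, `β ≠ 0`. For `u` with `M ∣ u - 1`: `toC u * z = z + toC (u - 1) * z`,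
`toC (u - 1) * z = toC u' * (M z) ∈ Lam ⊤` (`S_L2`), and `Lam ⊤ ⊆ Lam (a * ⊤) = Lam a` (`S_L2` (3)). So
`XC a z = XC a (toC (α β) * z) = XC (sp (α β) * a) z` (`S_B1` periods: `XC b` has the periods of `wpC b`; `S_B7` (3)),
`sp (α β) * a = sp β * sp α' = sp (α' β) * ⊤`, and `XC (sp (α' β) * ⊤) z = XC ⊤ (toC (α' β) * z) = XC ⊤ z`. Elements of `GK k t`
fix `wO k t`. -/
def S_RX : Prop :=
  S_O1 → S_O2 → S_O6 → S_L2 → S_B1 → S_B7 → ∀ (k t : ℕ) [Ine k t] (M : ℕ), 0 < M → 15 ∣ M →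
    (∀ z : ℂ, z ∉ Lam (⊤ : Ideal (OO k t)) → (M : ℂ) * z ∈ Lam (⊤ : Ideal (OO k t)) →
      xO (⊤ : Ideal (OO k t)) z ∈ RCF k t M) ∧ wO k t ∈ RCF k t M

/-- (80 lines) **The cross ratios.** The hypothesis is the conclusion of `S_RX`.
PROOF. `fr ⊤ ≠ 0` (`S_B1`, `PrI ⊤ 15`), so `crC k t z₁ z₂ z₃ = (XC ⊤ z₁ - XC ⊤ z₂) / (XC ⊤ z₃ - XC ⊤ z₂)` (`wpC ⊤ z = fr² XC ⊤ z + wpC ⊤ (1/3)`;
if the denominator is `0` both sides are `0`). `io (xO ⊤ z) = XC ⊤ z` for torsion points `z` (`S_R1`; `Tor` by `S_L2` (8) with `N = M`).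
The element `x = (xO ⊤ z₁ - xO ⊤ z₂) / (xO ⊤ z₃ - xO ⊤ z₂)` of `RCF` has `io x = crC k t z₁ z₂ z₃`, so `ofC (crC ..) = x` (`ofC_io`). -/
def S_We : Prop :=
  S_L1 → S_L2 → S_B1 → S_R1 → ∀ (k t : ℕ) [Ine k t] (M : ℕ), 0 < M → 15 ∣ M →
    ((∀ z : ℂ, z ∉ Lam (⊤ : Ideal (OO k t)) → (M : ℂ) * z ∈ Lam (⊤ : Ideal (OO k t)) →
        xO (⊤ : Ideal (OO k t)) z ∈ RCF k t M) ∧ wO k t ∈ RCF k t M) →
    ∀ z₁ z₂ z₃ : ℂ, z₁ ∉ Lam (⊤ : Ideal (OO k t)) → z₂ ∉ Lam (⊤ : Ideal (OO k t)) →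
      z₃ ∉ Lam (⊤ : Ideal (OO k t)) → (M : ℂ) * z₁ ∈ Lam (⊤ : Ideal (OO k t)) →
      (M : ℂ) * z₂ ∈ Lam (⊤ : Ideal (OO k t)) → (M : ℂ) * z₃ ∈ Lam (⊤ : Ideal (OO k t)) →
      ofC (crC k t z₁ z₂ z₃) ∈ RCF k t M

/-- (100 lines) **Number fields inside the field of the cross ratios.** The last hypothesis is the conclusion of
`S_RX` and `S_We`. Start from `DK/PI/FT.lean`.
PROOF. As in DK: `F ≤ adjoin ℚ B`, `B` finite, its elements are `wO k t` or `ofC (crC k t z₁ z₂ z₃)` with torsion points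
`z_i ∉ Lam ⊤`; in the last case there is `n_a > 0` with `n_a z_i ∈ Lam ⊤` for `i = 1, 2, 3` (product of three numbers given by
`S_L2` (8)); otherwise `n_a = 1`. Let `M = 30 * ∏ n_a > 0`, `M = f 2 ^ N` with `f` odd; `15 ∣ f` and `N ≥ 1`. -/
def S_FT : Prop :=
  S_L2 → ∀ (k t : ℕ) [Ine k t], (∀ M : ℕ, 0 < M → 15 ∣ M → wO k t ∈ RCF k t M ∧
      ∀ z₁ z₂ z₃ : ℂ, z₁ ∉ Lam (⊤ : Ideal (OO k t)) → z₂ ∉ Lam (⊤ : Ideal (OO k t)) →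
      z₃ ∉ Lam (⊤ : Ideal (OO k t)) → (M : ℂ) * z₁ ∈ Lam (⊤ : Ideal (OO k t)) →
      (M : ℂ) * z₂ ∈ Lam (⊤ : Ideal (OO k t)) → (M : ℂ) * z₃ ∈ Lam (⊤ : Ideal (OO k t)) →
      ofC (crC k t z₁ z₂ z₃) ∈ RCF k t M) →
    ∀ F : IntermediateField ℚ Om, FiniteDimensional ℚ F → F ≤ Wf k t →
      ∃ f N : ℕ, Odd f ∧ 15 ∣ f ∧ 1 ≤ N ∧ F ≤ RCF k t (f * 2 ^ N)

/-- (80 lines) **The field `RCF`.** Start from `DK/PI/MN1.lean`; `2 * f ∣ f * 2 ^ N` as `1 ≤ N`. -/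
def S_MN1 : Prop :=
  S_Cg → S_Ar3 → S_Ps → S_GalI → S_O1 → S_O2 → S_O6 → S_O7 → S_E1 → S_E8 →
  ∀ (k t : ℕ) [Ine k t] (f N : ℕ), Odd f → 15 ∣ f → 1 ≤ N →
    FiniteDimensional ℚ (RCF k t (f * 2 ^ N)) ∧
    (∀ σ ∈ (KQ k t).fixingSubgroup, ∀ x ∈ RCF k t (f * 2 ^ N), σ x ∈ RCF k t (f * 2 ^ N)) ∧
    KQ k t ≤ Lf k t f ∧ Lf k t f ≤ RCF k t (f * 2 ^ N) ∧
    ∃ a : ℕ, ∀ σ ∈ (Lf k t f).fixingSubgroup, σ ^ 2 ^ a ∈ (RCF k t (f * 2 ^ N)).fixingSubgroup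

/-- (60 lines) **Theorem DN, assembly of the last descent.** The hypotheses are the conclusions of `S_FT`,
`S_MN1`, `DI.PI.S_Up` and `S_I`. Start from `DK/PI/FinD.lean`. -/
def S_FinD : Prop :=
  DI.PI.S_JPe → ThmA → S_I →
  (∀ (k t : ℕ) [Ine k t] (F : IntermediateField ℚ Om), FiniteDimensional ℚ F → F ≤ Wf k t →
    ∃ f N : ℕ, Odd f ∧ 15 ∣ f ∧ 1 ≤ N ∧ F ≤ RCF k t (f * 2 ^ N)) →
  (∀ (k t : ℕ) [Ine k t] (f N : ℕ), Odd f → 15 ∣ f → 1 ≤ N →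
    FiniteDimensional ℚ (RCF k t (f * 2 ^ N)) ∧
    (∀ σ ∈ (KQ k t).fixingSubgroup, ∀ x ∈ RCF k t (f * 2 ^ N), σ x ∈ RCF k t (f * 2 ^ N)) ∧
    KQ k t ≤ Lf k t f ∧ Lf k t f ≤ RCF k t (f * 2 ^ N) ∧
    ∃ a : ℕ, ∀ σ ∈ (Lf k t f).fixingSubgroup, σ ^ 2 ^ a ∈ (RCF k t (f * 2 ^ N)).fixingSubgroup) →
  (∀ (F L : IntermediateField ℚ Om), FiniteDimensional ℚ L → F ≤ L → XFinGen 2 (cyc 2 L) →
    XFinGen 2 (cyc 2 F)) → ThmDN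

end Pool.Agent.DN.PI
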